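import Pool.Agent.H67.RB3.Sch3
import Pool.Agent.H86.HS.Def

/-!
# RB3 (MP_b39724_nt): surjective homomorphisms, any finite group with a faithful transitive representation of degree `m` (complete)

* `rbs_of_rbt`, `rbs_of_rba`: from the bounds for all homomorphisms.
* `rbs_core`: `H` a finite group, `U` a subgroup of index `m` which contains no nontrivial normal subgroup, `K` totally complex: `RBs K QBar H (m (m - 1) / 2)`.
-/

set_option autoImplicit false

open scoped NumberField Classical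
open IsDedekindDomain NumberField H38.ML H63.MA H38.WM H86.WP Module

noncomputable section

namespace H67.RB3

theorem rbs_of_rbt {K : Type} [Field K] [NumberField K] {Ω : Type} [Field Ω] [Algebra K Ω]
    {H : Type} [Group H] {θ : ℝ} (h : H86.HT.RBt K Ω H θ) : H86.HS.RBs K Ω H θ := by
  intro Q ε hε
  obtain ⟨C, hC⟩ := h Q ε hε
  exact ⟨C, fun Y hY Rs hRs => hC Y hY Rs fun φ hφ => ⟨(hRs φ hφ).1, (hRs φ hφ).2.2⟩⟩

variable {K : IntermediateField ℚ QBar} [NumberField K]

theorem rbs_of_rba {H : Type} [Group H] (h : ∀ Q : DP K QBar, RBA Q H) :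
    H86.HS.RBs K QBar H 1 := by
  intro Q ε hε
  obtain ⟨C, -, hC⟩ := h Q ε hε
  exact ⟨C, fun Y hY Rs hRs => hC Y hY Rs fun φ hφ => ⟨(hRs φ hφ).1, (hRs φ hφ).2.2⟩⟩

/-- the representation on the cosets -/
theorem regc (H : Type) [Group H] [Finite H] (U : Subgroup H) (hU : U.normalCore = ⊥) :
    ∃ (G : Subgroup (Equiv.Perm (Fin U.index))) (_ : MulAction.IsPretransitive G (Fin U.index)),
      Nonempty (H ≃* G) := by
  obtain ⟨e⟩ : Nonempty (H ⧸ U ≃ Fin U.index) := ⟨Finite.equivFin (H ⧸ U)⟩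
  let r : H →* Equiv.Perm (Fin U.index) :=
    (Equiv.permCongrHom e).toMonoidHom.comp (MulAction.toPermHom H (H ⧸ U))
  have hr : ∀ h i, r h i = e (h • e.symm i) := fun h i => rfl
  have hinj : Function.Injective r := by
    rw [injective_iff_map_eq_one]
    intro h hh
    have h1 : h ∈ (MulAction.toPermHom H (H ⧸ U)).ker := by
      rw [MonoidHom.mem_ker]
      apply Equiv.ext
      intro x
      have h2 := hr h (e x)
      rw [hh, Equiv.Perm.one_apply, Equiv.symm_apply_apply] at h2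
      exact (e.injective h2).symm
    rw [← Subgroup.normalCore_eq_ker, hU, Subgroup.mem_bot] at h1
    exact h1
  refine ⟨r.range, ⟨fun i j => ?_⟩, ⟨MonoidHom.ofInjective hinj⟩⟩
  obtain ⟨h, hh⟩ := MulAction.exists_smul_eq H (e.symm i) (e.symm j)
  refine ⟨⟨r h, ⟨_, rfl⟩⟩, ?_⟩
  change r h i = j
  rw [hr, hh, Equiv.apply_symm_apply]

theorem rbs_core [IsTotallyComplex K] (H : Type) [Group H] [Finite H] (U : Subgroup H)
    (hU : U.normalCore = ⊥) :
    H86.HS.RBs K QBar H (((U.index : ℝ) * ((U.index : ℝ) - 1)) / 2) := by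
  intro Q ε hε
  obtain ⟨G, hG, ⟨e⟩⟩ := regc H U hU
  have hpos : 1 ≤ U.index := Nat.one_le_iff_ne_zero.2 Subgroup.index_ne_zero_of_finite
  obtain ⟨C, hC0, hC⟩ := rbt_sj (K := K) hpos G hG Q
  refine ⟨C, fun Y hY Rs hRs => ?_⟩
  let F : (Gal(QBar/K) →* H) → (Gal(QBar/K) →* G) := fun ρ => e.toMonoidHom.comp ρ
  have hF : Function.Injective F := by
    intro ρ ρ' h
    apply MonoidHom.ext
    intro σ
    exact e.injective (DFunLike.congr_fun h σ)
  have h1 := hC Y hY (Rs.image F) (by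
    intro ρ hρ
    obtain ⟨φ, hφ, rfl⟩ := Finset.mem_image.1 hρ
    obtain ⟨h2, h3, h4⟩ := hRs φ hφ
    refine ⟨e.surjective.comp h3, ft_comp _ h2, fun S hS => h4 S fun l hl => ?_⟩
    obtain ⟨τ, hτ, hne⟩ := hS l hl
    refine ⟨τ, hτ, fun h0 => hne ?_⟩
    change e (φ τ) = 1
    rw [h0, map_one])
  rw [Finset.card_image_of_injective _ hF] at h1
  refine h1.trans (mul_le_mul_of_nonneg_left ?_ hC0)
  exact Real.rpow_le_rpow_of_exponent_le hY (by linarith)

end H67.RB3
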