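import Pool.Agent.H67.RB3.Tw
import Pool.Agent.H86.WP.Sub
import Pool.Agent.H38.SE.Fns
import Pool.Agent.H38.SQE.Ndl
import Pool.Agent.H38.BG.DUp
import Pool.Agent.H88.SW.Main

/-!
# RB3 (MP_b39724_nt): the homomorphisms to `S_3` without 3-ramification outside `S` (complete)

* `ddu`: the discriminant of the cubic field is at most `C rr Q φ`.
* `nsj`: the homomorphisms which are not surjective.
* `cnt`: the homomorphisms `φ` with `Nt Q S φ`, `rr Q φ ≤ Z` are at most `C Z^(1+ε)` in number (cubic fields: `H88.SW.wstat`).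
-/

set_option autoImplicit false

open scoped NumberField
open IsDedekindDomain NumberField H38.ML H63.MA H38.WM H86.WP

noncomputable section

namespace H67.RB3

theorem orbs2 (H : Subgroup (Equiv.Perm (Fin 3))) (h : ∃ c : Fin 3, ∀ g ∈ H, g c = c) :
    2 ≤ orbs H := by
  obtain ⟨c, hc⟩ := h
  have h0 : ∀ c : Fin 3, ∃ d : Fin 3, d ≠ c := by decide
  obtain ⟨d, hd⟩ := h0 c
  unfold orbs
  have hfin : Finite (MulAction.orbitRel.Quotient H (Fin 3)) := Quotient.finite _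
  have h1 : 1 < Nat.card (MulAction.orbitRel.Quotient H (Fin 3)) := by
    rw [Finite.one_lt_card_iff_nontrivial]
    refine ⟨⟨Quotient.mk'' d, Quotient.mk'' c, fun he => hd ?_⟩⟩
    have h2 : d ∈ MulAction.orbit H c := Quotient.exact' he
    obtain ⟨⟨g, hg⟩, h3⟩ := MulAction.mem_orbit_iff.1 h2
    rw [← h3]
    exact hc g hg
  exact h1

theorem odd_fix : ∀ g : Equiv.Perm (Fin 3), sg g ≠ 1 → ∃ c : Fin 3, g c = c := by decide +kernel

theorem sub_fix (H : Subgroup (Equiv.Perm (Fin 3))) (h : ∀ g ∈ H, sg g = 1 → g = 1) :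
    ∃ c : Fin 3, ∀ g ∈ H, g c = c := by
  by_cases h1 : ∃ g ∈ H, sg g ≠ 1
  · obtain ⟨g, hg, hs⟩ := h1
    obtain ⟨c, hc⟩ := odd_fix g hs
    refine ⟨c, fun k hk => ?_⟩
    by_cases h2 : sg k = 1
    · rw [h k hk h2]
      rfl
    · have h3 : sg (g * k) = 1 := by
        rw [map_mul]
        have h4 := (Int.units_eq_one_or (sg g)).resolve_left hs
        have h5 := (Int.units_eq_one_or (sg k)).resolve_left h2
        rw [h4, h5]
        decide
      have h6 := h _ (H.mul_mem hg hk) h3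
      have h7 : k = g⁻¹ := eq_inv_of_mul_eq_one_right h6
      rw [h7, Equiv.Perm.inv_eq_iff_eq]
      exact hc.symm
  · push Not at h1
    exact ⟨0, fun g hg => by rw [h g hg (h1 g hg)]; rfl⟩

variable {K : IntermediateField ℚ QBar} [NumberField K]

theorem ddu (S : Finset (Pl K)) (hS : ∀ v : Pl K, (((3 : ℕ).factorial : ℕ) : 𝓞 K) ∈ v.asIdeal → v ∈ S)
    (Q : DP K QBar) : ∃ C : ℝ, 0 < C ∧ ∀ φ ∈ H38.SE.Ch K, Nt Q S φ →
      (H38.SE.dD φ : ℝ) ≤ C * rr Q φ := by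
  classical
  set S' : Set (Ideal (𝓞 K)) := ((S.image fun v : Pl K => v.asIdeal : Finset (Ideal (𝓞 K))) :
    Set (Ideal (𝓞 K))) with hS'
  have hSf : S'.Finite := Finset.finite_toSet _
  obtain ⟨C, hC, hb⟩ := disc_bound QBar 3 S' hSf (fun v hv hv0 hvS hmem =>
    hvS (Finset.mem_coe.2 (Finset.mem_image.2 ⟨⟨v, hv, hv0⟩, hS ⟨v, hv, hv0⟩ hmem, rfl⟩)))
  refine ⟨C, by exact_mod_cast hC, fun φ hφ hN => ?_⟩
  obtain ⟨hft, hsj⟩ := H38.SE.cht_ft hφ
  obtain ⟨hfd, hdeg, -, hemb⟩ := small_field (⊤ : Subgroup (Equiv.Perm (Fin 3))) H38.SE.cht_tr K 0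
    (H38.SE.chT φ) hsj hft
  rw [H38.SE.cht_fd] at hfd hdeg
  have hemb' : ∀ J : Subgroup Gal(QBar/K), embOrb (H38.SE.F0 φ) J = orbs (J.map φ) := by
    intro J
    have h1 := hemb J
    rw [H38.SE.cht_fd] at h1
    rw [h1]
    congr 1
    ext g
    constructor
    · rintro ⟨_, ⟨σ, hσ, rfl⟩, rfl⟩
      exact ⟨σ, hσ, rfl⟩
    · rintro ⟨σ, hσ, rfl⟩
      exact ⟨_, ⟨σ, hσ, rfl⟩, rfl⟩
  have hnf : NumberField (H38.SE.F0 φ) := NumberField.of_module_finite K (H38.SE.F0 φ)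
  have hS0 : ∀ v : Pl K, v.asIdeal ∉ S' → v ∉ S := by
    intro v hv h
    exact hv (Finset.mem_coe.2 (Finset.mem_image_of_mem _ h))
  have hmain := hb (H38.SE.F0 φ) hfd hnf hdeg
    (((tt Q φ).filter fun v => v.asIdeal ∉ S').image fun v => v.asIdeal) 1
    (by
      intro v hv
      obtain ⟨w, -, rfl⟩ := Finset.mem_image.1 hv
      exact ⟨w.isPrime, w.ne_bot⟩)
    (by
      intro v hv
      obtain ⟨w, hw, rfl⟩ := Finset.mem_image.1 hv
      have hw0 := hS0 w (Finset.mem_filter.1 hw).2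
      refine ⟨Q.P w, Q.prime w, Q.under w, ?_⟩
      rw [hemb']
      have h1 := orbs2 (((Q.P w).inertia Gal(QBar/K)).map φ) (sub_fix _ (by
        rintro _ ⟨σ, hσ, rfl⟩ h
        exact hN w hw0 σ hσ h))
      omega)
    (by
      intro v hv hv0 hvS hvT
      refine ⟨Q.P ⟨v, hv, hv0⟩, Q.prime _, Q.under _, ?_⟩
      rw [hemb']
      have h1 : ((Q.P ⟨v, hv, hv0⟩).inertia Gal(QBar/K)).map φ = ⊥ := by
        rw [eq_bot_iff]
        rintro _ ⟨τ, hτ, rfl⟩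
        rw [Subgroup.mem_bot]
        by_contra h
        apply hvT
        refine Finset.mem_image.2 ⟨⟨v, hv, hv0⟩, Finset.mem_filter.2 ⟨?_, hvS⟩, rfl⟩
        exact (mem_tt Q hφ.1 _).2 ⟨τ, hτ, h⟩
      rw [h1, orbs_bot])
  have hrel : H38.SE.dD φ =
      Ideal.absNorm (differentIdeal (𝓞 K) (𝓞 (H38.SE.F0 φ))) := by
    unfold H38.SE.dD H38.ML.relDisc
    rw [dif_pos hnf]
  rw [hrel]
  have hprod : ∏ v ∈ ((tt Q φ).filter fun v => v.asIdeal ∉ S').image (fun v : Pl K => v.asIdeal),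
      Ideal.absNorm v ≤ ∏ v ∈ tt Q φ, nm v := by
    rw [Finset.prod_image (fun a _ b _ h => HeightOneSpectrum.ext h)]
    refine Finset.prod_le_prod_of_subset_of_one_le' (Finset.filter_subset _ _) fun v _ _ => ?_
    exact Nat.one_le_iff_ne_zero.2 fun h => v.ne_bot (Ideal.absNorm_eq_zero_iff.1 h)
  have h2 : Ideal.absNorm (differentIdeal (𝓞 K) (𝓞 (H38.SE.F0 φ))) ≤
      C * ∏ v ∈ tt Q φ, nm v := by
    refine le_trans hmain (Nat.mul_le_mul_left _ ?_)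
    rw [pow_one]
    exact hprod
  have h3 : ((Ideal.absNorm (differentIdeal (𝓞 K) (𝓞 (H38.SE.F0 φ))) : ℕ) : ℝ) ≤
      ((C * ∏ v ∈ tt Q φ, nm v : ℕ) : ℝ) := by exact_mod_cast h2
  refine h3.trans (le_of_eq ?_)
  unfold rr
  push_cast
  rfl

/-- the homomorphisms which are not surjective -/
theorem nsj (Q : DP K QBar) (G : Type) [Group G] [Finite G] (h : ∀ U : Subgroup G, U ≠ ⊤ → RB Q U)
    (ε : ℝ) (hε : 0 < ε) : ∃ C : ℝ, 0 ≤ C ∧ ∀ Z : ℝ, 1 ≤ Z → ∀ Rs : Finset (Gal(QBar/K) →* G),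
      (∀ ρ ∈ Rs, Cf Q Z ρ ∧ ¬ Function.Surjective ρ) → (Rs.card : ℝ) ≤ C * Z ^ (1 + ε) := by
  classical
  choose C hC0 hC using fun U : {U : Subgroup G // U ≠ ⊤} => h U.1 U.2 ε hε
  let _ : Fintype {U : Subgroup G // U ≠ ⊤} := Fintype.ofFinite _
  refine ⟨∑ U, C U, Finset.sum_nonneg fun U _ => hC0 U, fun Z hZ Rs hRs => ?_⟩
  have h1 : ∀ U : {U : Subgroup G // U ≠ ⊤},
      (((Rs.filter fun ρ => ρ.range = U.1).card : ℕ) : ℝ) ≤ C U * Z ^ (1 + ε) := by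
    rintro ⟨U, hU⟩
    let F : (Gal(QBar/K) →* G) → (Gal(QBar/K) →* U) := fun ρ =>
      if h : ∀ σ, ρ σ ∈ U then ρ.codRestrict U h else 1
    have hF : ∀ ρ ∈ Rs.filter (fun ρ => ρ.range = U), ∀ σ, ((F ρ σ : U) : G) = ρ σ := by
      intro ρ hρ σ
      have h2 := (Finset.mem_filter.1 hρ).2
      have h3 : ∀ σ, ρ σ ∈ U := fun σ => h2 ▸ ⟨σ, rfl⟩
      simp only [F, dif_pos h3]
      rfl
    have hinj : Set.InjOn F (Rs.filter fun ρ => ρ.range = U) := by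
      intro ρ hρ ρ' hρ' h4
      apply MonoidHom.ext
      intro σ
      rw [← hF ρ hρ, ← hF ρ' hρ', h4]
    have h5 := hC ⟨U, hU⟩ Z hZ ((Rs.filter fun ρ => ρ.range = U).image F) (by
      intro φ hφ
      obtain ⟨ρ, hρ, rfl⟩ := Finset.mem_image.1 hφ
      obtain ⟨h6, h7⟩ := Finset.mem_filter.1 hρ
      obtain ⟨⟨⟨E, hE, hle⟩, h8⟩, -⟩ := hRs ρ h6
      have h9 : ∀ σ, ρ σ = 1 → F ρ σ = 1 := by
        intro σ hσ
        apply Subtype.ext
        rw [hF ρ hρ, hσ]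
        rfl
      refine ⟨?_, ⟨E, hE, fun σ hσ => h9 σ (hle hσ)⟩, fun S hS => h8 S fun l hl => ?_⟩
      · rintro ⟨u, hu⟩
        have hu' : u ∈ U := hu
        rw [← h7] at hu'
        obtain ⟨σ, hσ⟩ := hu'
        exact ⟨σ, Subtype.ext (by rw [hF ρ hρ, hσ])⟩
      · obtain ⟨τ, hτ, hne⟩ := hS l hl
        exact ⟨τ, hτ, fun h0 => hne (h9 τ h0)⟩)
    rwa [Finset.card_image_of_injOn hinj] at h5
  have hnt : ∀ ρ ∈ Rs, ρ.range ≠ ⊤ := fun ρ hρ h2 =>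
    (hRs ρ hρ).2 (MonoidHom.range_eq_top.1 h2)
  calc (Rs.card : ℝ) ≤ ∑ U : {U : Subgroup G // U ≠ ⊤},
        (((Rs.filter fun ρ => ρ.range = U.1).card : ℕ) : ℝ) := by
        have h2 : Rs.card ≤ ∑ U : {U : Subgroup G // U ≠ ⊤},
            (Rs.filter fun ρ => ρ.range = U.1).card := by
          rw [← Finset.card_sigma]
          refine Finset.card_le_card_of_surjOn (fun x => x.2) ?_
          intro ρ hρ
          refine ⟨⟨⟨ρ.range, hnt ρ (Finset.mem_coe.1 hρ)⟩, ρ⟩, ?_, rfl⟩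
          rw [Finset.mem_coe, Finset.mem_sigma]
          exact ⟨Finset.mem_univ _, Finset.mem_filter.2 ⟨Finset.mem_coe.1 hρ, rfl⟩⟩
        exact_mod_cast h2
    _ ≤ ∑ U : {U : Subgroup G // U ≠ ⊤}, C U * Z ^ (1 + ε) := Finset.sum_le_sum fun U _ => h1 U
    _ = (∑ U, C U) * Z ^ (1 + ε) := by rw [Finset.sum_mul]

/-- the proper subgroups of `S_3` are commutative -/
theorem s3_sub (U : Subgroup (Equiv.Perm (Fin 3))) (hU : U ≠ ⊤) : Group.IsNilpotent U := by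
  have hc : Nat.card U ∣ 6 := by
    have h1 := Subgroup.card_subgroup_dvd_card U
    have h2 : Nat.card (Equiv.Perm (Fin 3)) = 6 := by
      rw [Nat.card_perm, Nat.card_fin]
      rfl
    rwa [h2] at h1
  have hle : Nat.card U ≤ 6 := Nat.le_of_dvd (by norm_num) hc
  have hpos : 0 < Nat.card U := Nat.card_pos
  have hne : Nat.card U ≠ 6 := by
    intro h
    apply hU
    apply Subgroup.eq_top_of_card_eq
    rw [h, Nat.card_perm, Nat.card_fin]
    rfl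
  have hcases : Nat.card U = 1 ∨ Nat.card U = 2 ∨ Nat.card U = 3 := by
    interval_cases h : Nat.card U
    · exact Or.inl rfl
    · exact Or.inr (Or.inl rfl)
    · exact Or.inr (Or.inr rfl)
    · omega
    · omega
    · exact absurd rfl hne
  rcases hcases with h | h | h
  · have : Subsingleton U := (Nat.card_eq_one_iff_unique.1 h).1
    infer_instance
  · have : Fact (Nat.Prime 2) := ⟨Nat.prime_two⟩
    exact (IsPGroup.of_card (n := 1) (by rw [h, pow_one])).isNilpotent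
  · have : Fact (Nat.Prime 3) := ⟨Nat.prime_three⟩
    exact (IsPGroup.of_card (n := 1) (by rw [h, pow_one])).isNilpotent

theorem cnt (S : Finset (Pl K)) (hS : ∀ v : Pl K, (((3 : ℕ).factorial : ℕ) : 𝓞 K) ∈ v.asIdeal → v ∈ S)
    (Q : DP K QBar) (ε : ℝ) (hε : 0 < ε) : ∃ C : ℝ, 0 ≤ C ∧ ∀ Z : ℝ, 1 ≤ Z →
      ∀ X : Finset (Gal(QBar/K) →* Equiv.Perm (Fin 3)),
        (∀ φ ∈ X, FT φ ∧ Nt Q S φ ∧ rr Q φ ≤ Z) → (X.card : ℝ) ≤ C * Z ^ (1 + ε) := by
  classical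
  obtain ⟨C₁, hC₁, h1⟩ := ddu S hS Q
  obtain ⟨C₂, hC₂, h2⟩ := H38.SE.fns (H88.SW.wstat K)
  obtain ⟨C₃, hC₃, h3⟩ := nsj Q (Equiv.Perm (Fin 3))
    (fun U hU => rb_of_rba Q (rba_nil Q U (s3_sub U hU))) ε hε
  refine ⟨C₂ * C₁ + C₃, by positivity, fun Z hZ X hX => ?_⟩
  have h4 : (((X.filter fun φ : Gal(QBar/K) →* Equiv.Perm (Fin 3) => Function.Surjective φ).card : ℕ) : ℝ) ≤ C₂ * C₁ * Z := by
    obtain ⟨R, hR⟩ : ∃ R : ℕ, R = ⌊C₁ * Z⌋₊ := ⟨_, rfl⟩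
    have h5 := (h2 R).2 (X.filter fun φ : Gal(QBar/K) →* Equiv.Perm (Fin 3) => Function.Surjective φ) (by
      intro φ hφ
      obtain ⟨h6, h7⟩ := Finset.mem_filter.1 hφ
      obtain ⟨h8, h9, h10⟩ := hX φ h6
      refine ⟨⟨h8, h7⟩, ?_⟩
      rw [hR]
      apply Nat.le_floor
      refine (h1 φ ⟨h8, h7⟩ h9).trans ?_
      exact mul_le_mul_of_nonneg_left h10 hC₁.le)
    have h6 : (((X.filter fun φ : Gal(QBar/K) →* Equiv.Perm (Fin 3) => Function.Surjective φ).card : ℕ) : ℝ) ≤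
        ∑ χ ∈ X.filter fun φ : Gal(QBar/K) →* Equiv.Perm (Fin 3) => Function.Surjective φ, (H48.KV.selg (H38.SE.F0 χ) : ℝ) := by
      rw [Finset.card_eq_sum_ones, Nat.cast_sum]
      refine Finset.sum_le_sum fun χ hχ => ?_
      obtain ⟨h6, h7⟩ := Finset.mem_filter.1 hχ
      obtain ⟨c, hc⟩ := H38.SE.chc χ ⟨(hX χ h6).1, h7⟩
      rw [← hc]
      exact_mod_cast H38.SQE.selg_one c
    have h7 : (R : ℝ) ≤ C₁ * Z := by
      rw [hR]
      exact Nat.floor_le (by positivity)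
    calc _ ≤ C₂ * (R : ℝ) := h6.trans h5
      _ ≤ C₂ * (C₁ * Z) := mul_le_mul_of_nonneg_left h7 (by linarith)
      _ = C₂ * C₁ * Z := by ring
  have h5 := h3 Z hZ (X.filter fun φ : Gal(QBar/K) →* Equiv.Perm (Fin 3) => ¬ Function.Surjective φ) (by
    intro φ hφ
    obtain ⟨h6, h7⟩ := Finset.mem_filter.1 hφ
    obtain ⟨h8, h9, h10⟩ := hX φ h6
    exact ⟨(cf_iff Q Z h8).2 h10, h7⟩)
  have h6 : X.card = (X.filter fun φ : Gal(QBar/K) →* Equiv.Perm (Fin 3) => Function.Surjective φ).card +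
      (X.filter fun φ : Gal(QBar/K) →* Equiv.Perm (Fin 3) => ¬ Function.Surjective φ).card :=
    (Finset.card_filter_add_card_filter_not (s := X) (fun φ : Gal(QBar/K) →* Equiv.Perm (Fin 3) => Function.Surjective φ)).symm
  have h7 : Z ≤ Z ^ (1 + ε) := by
    have h8 := Real.rpow_le_rpow_of_exponent_le hZ (by linarith : (1 : ℝ) ≤ 1 + ε)
    rwa [Real.rpow_one] at h8
  have h8 : C₂ * C₁ * Z ≤ C₂ * C₁ * Z ^ (1 + ε) :=
    mul_le_mul_of_nonneg_left h7 (by positivity)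
  rw [h6, Nat.cast_add, add_mul]
  exact add_le_add (h4.trans h8) h5

end H67.RB3
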