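import Pool.Agent.H67.RB3.Cnt
import Pool.Agent.H51.TC.W1p

/-!
# RB3 (MP_b39724_nt): the counting hypothesis for `S_3` and for the groups which are `S_3` modulo the hypercentre (complete)

* `rba_s3`: the homomorphisms `ρ : Gal(QBar/K) →* S_3` of finite type with product of the norms of the ramified primes at most `Z` are at most `C Z^(1+ε)` in number,
  for every number field `K`.
* `rba_all3`: the same for every finite group `G` with a homomorphism to `S_3` whose kernel is in some `Z_k(G)`; `rb_all3`: the form of chapter TC.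

Proof. As `H86.WP.rad`, with `fib3` for the fibres over the sign characters and `cnt` for the sum of the numbers of the `φ` with `Nt Q S φ`.
-/

set_option autoImplicit false

open scoped NumberField
open IsDedekindDomain NumberField H38.ML H63.MA H38.WM H86.WP

noncomputable section

namespace H67.RB3

variable {K : IntermediateField ℚ QBar} [NumberField K]

/-- the ramified primes of `φ` with `Nt` -/
theorem rr_le (S : Finset (Pl K)) (Q : DP K QBar) (φ : Gal(QBar/K) →* Equiv.Perm (Fin 3))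
    (hφ : FT φ) (hN : Nt Q S φ) :
    rr Q φ ≤ (∏ l ∈ S, (nm l : ℝ)) * rr Q (sg.comp φ) := by
  classical
  have h1 : tt Q φ ⊆ S ∪ tt Q (sg.comp φ) := by
    intro v hv
    rw [Finset.mem_union]
    by_cases hvS : v ∈ S
    · exact Or.inl hvS
    · right
      obtain ⟨τ, hτ, hne⟩ := (mem_tt Q hφ v).1 hv
      exact (mem_tt Q (ft_comp sg hφ) v).2 ⟨τ, hτ, fun h => hne (hN v hvS τ hτ h)⟩
  have h2 : rr Q φ ≤ ∏ l ∈ S ∪ tt Q (sg.comp φ), (nm l : ℝ) :=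
    Finset.prod_le_prod_of_subset_of_one_le h1 (fun l _ => zero_le_one.trans (nm_one l))
      fun l _ _ => nm_one l
  refine h2.trans ?_
  have h3 : (∏ l ∈ S ∪ tt Q (sg.comp φ), (nm l : ℝ)) * ∏ l ∈ S ∩ tt Q (sg.comp φ), (nm l : ℝ) =
      (∏ l ∈ S, (nm l : ℝ)) * ∏ l ∈ tt Q (sg.comp φ), (nm l : ℝ) := Finset.prod_union_inter
  have h4 := prod_one (S ∩ tt Q (sg.comp φ))
  have h5 := prod_one (S ∪ tt Q (sg.comp φ))
  unfold rr
  rw [← h3]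
  nlinarith

/-- the set of the `φ` over `ψ` with `Nt` -/
def AS3 (Q : DP K QBar) (S : Finset (Pl K)) (ψ : Gal(QBar/K) →* ℤˣ) :
    Set (Gal(QBar/K) →* Equiv.Perm (Fin 3)) := {φ | FT φ ∧ sg.comp φ = ψ ∧ Nt Q S φ}

theorem as3_fin (S : Finset (Pl K))
    (hS : ∀ v : Pl K, (((3 : ℕ).factorial : ℕ) : 𝓞 K) ∈ v.asIdeal → v ∈ S) (Q : DP K QBar)
    (ψ : Gal(QBar/K) →* ℤˣ) : (AS3 Q S ψ).Finite := by
  classical
  obtain ⟨C, hC, h1⟩ := cnt S hS Q 1 one_pos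
  by_contra hinf
  have h2 : (AS3 Q S ψ).Infinite := hinf
  obtain ⟨N, hN⟩ := exists_nat_gt (C * ((∏ l ∈ S, (nm l : ℝ)) * rr Q ψ) ^ (1 + (1 : ℝ)))
  obtain ⟨X, hX, hXc⟩ := h2.exists_subset_card_eq N
  have h3 := h1 ((∏ l ∈ S, (nm l : ℝ)) * rr Q ψ)
    (one_le_mul_of_one_le_of_one_le (prod_one S) (rr_one Q ψ)) X (by
      intro φ hφ
      obtain ⟨h4, h5, h6⟩ := hX (Finset.mem_coe.2 hφ)
      refine ⟨h4, h6, ?_⟩
      have h7 := rr_le S Q φ h4 h6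
      rwa [h5] at h7)
  rw [hXc] at h3
  linarith

theorem rba_s3 (Q : DP K QBar) : RBA Q (Equiv.Perm (Fin 3)) := by
  classical
  intro ε hε
  have hfin : {v : Pl K | (((3 : ℕ).factorial : ℕ) : 𝓞 K) ∈ v.asIdeal}.Finite :=
    finite_above (K := K) (by norm_num [Nat.factorial])
  obtain ⟨S, hSd⟩ : ∃ S : Finset (Pl K), S = hfin.toFinset := ⟨_, rfl⟩
  have hS : ∀ v : Pl K, (((3 : ℕ).factorial : ℕ) : 𝓞 K) ∈ v.asIdeal → v ∈ S := by
    intro v hv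
    rw [hSd]
    exact hfin.mem_toFinset.2 hv
  obtain ⟨B, hB⟩ : ∃ B : ℝ, B = ∏ l ∈ S, (nm l : ℝ) := ⟨_, rfl⟩
  have hB1 : 1 ≤ B := by
    rw [hB]
    exact prod_one S
  obtain ⟨Ch, hCh0, hCh⟩ := cnt S hS Q (ε / 4) (by positivity)
  obtain ⟨Cs, hCs0, hCs⟩ := sumT K ((3 : ℕ) : ℝ) ε (Nat.cast_nonneg _) hε
  obtain ⟨Cw, hCw0, hCw⟩ := wgt K 3 (ε / 2) (by positivity)
  have hB0 : 0 ≤ B ^ (1 + ε / 4) := Real.rpow_nonneg (by linarith) _
  obtain ⟨Cd, hCd0, hCd⟩ := dya (Ch * B ^ (1 + ε / 4)) (1 + ε / 2) (1 + ε / 4) (by positivity)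
    (by positivity) (by linarith)
  refine ⟨Cw * Cd * Cs, by positivity, fun Z hZ Rs hRs => ?_⟩
  -- the fibres
  let A : (Gal(QBar/K) →* ℤˣ) → Finset (Gal(QBar/K) →* Equiv.Perm (Fin 3)) := fun ψ =>
    (as3_fin S hS Q ψ).toFinset
  have hA : ∀ ψ φ, φ ∈ A ψ ↔ FT φ ∧ sg.comp φ = ψ ∧ Nt Q S φ := by
    intro ψ φ
    simp only [A, Set.Finite.mem_toFinset]
    exact Iff.rfl
  -- the two sums
  let g : (Gal(QBar/K) →* ℤˣ) → ℝ := fun ψ =>
    ((A ψ).card : ℝ) * (((3 : ℕ) : ℝ) ^ (tt Q ψ).card / rr Q ψ ^ (1 + ε))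
  let h : Finset (Pl K) → ℝ := fun T => ((3 : ℕ) : ℝ) ^ T.card / (∏ l ∈ T, (nm l : ℝ)) ^ (1 + ε)
  have hg0 : ∀ ψ, 0 ≤ g ψ := fun ψ => mul_nonneg (Nat.cast_nonneg _)
    (div_nonneg (by positivity) (Real.rpow_nonneg (zero_le_one.trans (rr_one Q ψ)) _))
  have hh0 : ∀ T, 0 ≤ h T := fun T =>
    div_nonneg (by positivity) (Real.rpow_nonneg (zero_le_one.trans (prod_one T)) _)
  let I₁ : Finset (Gal(QBar/K) →* ℤˣ) := Rs.image fun ρ => sg.comp ρ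
  have hsum₁ : ∑ ψ ∈ I₁, g ψ ≤ Cw * Cd := by
    have h1 : ∑ φ ∈ I₁.biUnion A, rr Q (sg.comp φ) ^ (-(1 + ε / 2)) ≤ Cd := by
      refine hCd (I₁.biUnion A) (fun φ => rr Q (sg.comp φ)) (fun φ _ => rr_one Q _)
        fun X hX J hJ hJX => ?_
      have h2 := hCh (B * X) (one_le_mul_of_one_le_of_one_le hB1 hX) J (by
        intro φ hφ
        obtain ⟨ψ, -, hφA⟩ := Finset.mem_biUnion.1 (hJ hφ)
        obtain ⟨h3, -, h5⟩ := (hA ψ φ).1 hφA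
        refine ⟨h3, h5, (rr_le S Q φ h3 h5).trans ?_⟩
        rw [← hB]
        exact mul_le_mul_of_nonneg_left (hJX φ hφ) (by linarith))
      rw [Real.mul_rpow (by linarith) (by linarith), ← mul_assoc] at h2
      exact h2
    have h2 : ∑ φ ∈ I₁.biUnion A, rr Q (sg.comp φ) ^ (-(1 + ε / 2)) =
        ∑ ψ ∈ I₁, ((A ψ).card : ℝ) * rr Q ψ ^ (-(1 + ε / 2)) := by
      rw [Finset.sum_biUnion]
      · refine Finset.sum_congr rfl fun ψ _ => ?_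
        rw [Finset.sum_congr rfl (g := fun _ => rr Q ψ ^ (-(1 + ε / 2))) fun φ hφ => by
          rw [((hA ψ φ).1 hφ).2.1], Finset.sum_const, nsmul_eq_mul]
      · intro ψ _ ψ' _ hne
        rw [Function.onFun, Finset.disjoint_left]
        intro φ hφ hφ'
        exact hne (((hA ψ φ).1 hφ).2.1.symm.trans ((hA ψ' φ).1 hφ').2.1)
    have h3 : ∀ ψ ∈ I₁, g ψ ≤ Cw * (((A ψ).card : ℝ) * rr Q ψ ^ (-(1 + ε / 2))) := by
      intro ψ _
      have h3 : 0 < rr Q ψ := lt_of_lt_of_le one_pos (rr_one Q ψ)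
      have h4 := hCw (tt Q ψ)
      have h5 : ((3 : ℕ) : ℝ) ^ (tt Q ψ).card / rr Q ψ ^ (1 + ε) ≤
          Cw * rr Q ψ ^ (-(1 + ε / 2)) := by
        rw [div_le_iff₀ (Real.rpow_pos_of_pos h3 _), mul_assoc, ← Real.rpow_add h3]
        refine h4.trans (le_of_eq ?_)
        change Cw * rr Q ψ ^ (ε / 2) = _
        congr 2
        ring
      calc g ψ ≤ ((A ψ).card : ℝ) * (Cw * rr Q ψ ^ (-(1 + ε / 2))) :=
            mul_le_mul_of_nonneg_left h5 (Nat.cast_nonneg _)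
        _ = _ := by ring
    calc ∑ ψ ∈ I₁, g ψ ≤ ∑ ψ ∈ I₁, Cw * (((A ψ).card : ℝ) * rr Q ψ ^ (-(1 + ε / 2))) :=
          Finset.sum_le_sum h3
      _ = Cw * ∑ ψ ∈ I₁, ((A ψ).card : ℝ) * rr Q ψ ^ (-(1 + ε / 2)) := by rw [Finset.mul_sum]
      _ ≤ Cw * Cd := by
          rw [← h2]
          exact mul_le_mul_of_nonneg_left h1 hCw0
  let I₂ : Finset (Finset (Pl K)) := Rs.image fun ρ => tt Q ρ \ tt Q (sg.comp ρ)
  have hsum₂ : ∑ T ∈ I₂, h T ≤ Cs := hCs I₂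
  -- the labels
  let lab : (Gal(QBar/K) →* Equiv.Perm (Fin 3)) → (Gal(QBar/K) →* ℤˣ) × Finset (Pl K) := fun ρ =>
    (sg.comp ρ, tt Q ρ \ tt Q (sg.comp ρ))
  have hsub : ∀ ρ ∈ Rs, tt Q (sg.comp ρ) ⊆ tt Q ρ := by
    intro ρ hρ l hl
    rw [mem_tt Q (hRs ρ hρ).1]
    exact rm_comp Q sg ((mem_tt Q (ft_comp sg (hRs ρ hρ).1) l).1 hl)
  have hfib : ∀ b ∈ Rs.image lab, (((Rs.filter fun ρ => lab ρ = b).card : ℕ) : ℝ) ≤
      Z ^ (1 + ε) * (g b.1 * h b.2) := by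
    intro b hb
    obtain ⟨ρ₀, hρ₀, rfl⟩ := Finset.mem_image.1 hb
    have h1 : (Rs.filter fun ρ => lab ρ = lab ρ₀).card ≤
        3 ^ (tt Q ρ₀).card * (A (sg.comp ρ₀)).card := by
      refine fib3 S hS Q (sg.comp ρ₀) _ (fun φ h2 h3 h4 => (hA _ _).2 ⟨h2, h3, h4⟩) (tt Q ρ₀) _
        fun ρ hρ => ?_
      obtain ⟨h2, h3⟩ := Finset.mem_filter.1 hρ
      have h4 : sg.comp ρ = sg.comp ρ₀ := congrArg Prod.fst h3
      have h5 : tt Q ρ \ tt Q (sg.comp ρ) = tt Q ρ₀ \ tt Q (sg.comp ρ₀) := congrArg Prod.snd h3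
      refine ⟨h4, (hRs ρ h2).1, fun l hl => ?_⟩
      have h6 : tt Q ρ = tt Q ρ₀ := by
        rw [← Finset.sdiff_union_of_subset (hsub ρ h2), h5, h4,
          Finset.sdiff_union_of_subset (hsub ρ₀ hρ₀)]
      rw [← h6]
      exact (mem_tt Q (hRs ρ h2).1 l).2 hl
    have h2 : ((3 : ℕ) : ℝ) ^ (tt Q ρ₀).card * ((A (sg.comp ρ₀)).card : ℝ) ≤
        Z ^ (1 + ε) * (g (sg.comp ρ₀) * h (tt Q ρ₀ \ tt Q (sg.comp ρ₀))) := by
      set T₁ := tt Q (sg.comp ρ₀) with hT₁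
      set T₂ := tt Q ρ₀ \ T₁ with hT₂
      have h3 : tt Q ρ₀ = T₂ ∪ T₁ := (Finset.sdiff_union_of_subset (hsub ρ₀ hρ₀)).symm
      have h4 : Disjoint T₂ T₁ := Finset.sdiff_disjoint
      have h5 : (tt Q ρ₀).card = T₂.card + T₁.card := by
        rw [h3, Finset.card_union_of_disjoint h4]
      have h6 : (∏ l ∈ T₂, (nm l : ℝ)) * ∏ l ∈ T₁, (nm l : ℝ) ≤ Z := by
        rw [← Finset.prod_union h4, ← h3]
        exact (cf_iff Q Z (hRs ρ₀ hρ₀).1).1 (hRs ρ₀ hρ₀)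
      have hP₁ : 0 < ∏ l ∈ T₁, (nm l : ℝ) := lt_of_lt_of_le one_pos (prod_one T₁)
      have hP₂ : 0 < ∏ l ∈ T₂, (nm l : ℝ) := lt_of_lt_of_le one_pos (prod_one T₂)
      have h7 : ((∏ l ∈ T₂, (nm l : ℝ)) * ∏ l ∈ T₁, (nm l : ℝ)) ^ (1 + ε) ≤ Z ^ (1 + ε) :=
        Real.rpow_le_rpow (by positivity) h6 (by positivity)
      rw [Real.mul_rpow hP₂.le hP₁.le] at h7
      have h8 : g (sg.comp ρ₀) * h T₂ = ((3 : ℕ) : ℝ) ^ (tt Q ρ₀).card *
          ((A (sg.comp ρ₀)).card : ℝ) /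
          ((∏ l ∈ T₂, (nm l : ℝ)) ^ (1 + ε) * (∏ l ∈ T₁, (nm l : ℝ)) ^ (1 + ε)) := by
        change ((A (sg.comp ρ₀)).card : ℝ) * (((3 : ℕ) : ℝ) ^ T₁.card /
          (∏ l ∈ T₁, (nm l : ℝ)) ^ (1 + ε)) *
          (((3 : ℕ) : ℝ) ^ T₂.card / (∏ l ∈ T₂, (nm l : ℝ)) ^ (1 + ε)) = _
        rw [h5, pow_add, ← mul_div_assoc (((A (sg.comp ρ₀)).card : ℝ)), div_mul_div_comm]
        congr 1
        · ring
        · ring
      rw [h8, ← mul_div_assoc,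
        le_div_iff₀ (mul_pos (Real.rpow_pos_of_pos hP₂ _) (Real.rpow_pos_of_pos hP₁ _)), mul_comm]
      exact mul_le_mul_of_nonneg_right h7
        (mul_nonneg (pow_nonneg (Nat.cast_nonneg _) _) (Nat.cast_nonneg _))
    calc (((Rs.filter fun ρ => lab ρ = lab ρ₀).card : ℕ) : ℝ) ≤
          ((3 ^ (tt Q ρ₀).card * (A (sg.comp ρ₀)).card : ℕ) : ℝ) := Nat.cast_le.2 h1
      _ = ((3 : ℕ) : ℝ) ^ (tt Q ρ₀).card * ((A (sg.comp ρ₀)).card : ℝ) := by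
          rw [Nat.cast_mul, Nat.cast_pow]
      _ ≤ _ := h2
  have hcard : (Rs.card : ℝ) = ∑ b ∈ Rs.image lab, (((Rs.filter fun ρ => lab ρ = b).card : ℕ) : ℝ) := by
    rw [Finset.card_eq_sum_card_image lab Rs]
    push_cast
    rfl
  have hsubI : Rs.image lab ⊆ I₁ ×ˢ I₂ := by
    intro b hb
    obtain ⟨ρ, hρ, rfl⟩ := Finset.mem_image.1 hb
    exact Finset.mem_product.2 ⟨Finset.mem_image_of_mem _ hρ, Finset.mem_image_of_mem _ hρ⟩
  have hZ0 : 0 ≤ Z ^ (1 + ε) := Real.rpow_nonneg (by linarith) _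
  calc (Rs.card : ℝ) = ∑ b ∈ Rs.image lab, (((Rs.filter fun ρ => lab ρ = b).card : ℕ) : ℝ) := hcard
    _ ≤ ∑ b ∈ Rs.image lab, Z ^ (1 + ε) * (g b.1 * h b.2) := Finset.sum_le_sum hfib
    _ ≤ ∑ b ∈ I₁ ×ˢ I₂, Z ^ (1 + ε) * (g b.1 * h b.2) := by
        refine Finset.sum_le_sum_of_subset_of_nonneg hsubI fun b _ _ => ?_
        exact mul_nonneg hZ0 (mul_nonneg (hg0 _) (hh0 _))
    _ = Z ^ (1 + ε) * ((∑ ψ ∈ I₁, g ψ) * ∑ T ∈ I₂, h T) := by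
        rw [← Finset.mul_sum, Finset.sum_mul_sum, Finset.sum_product]
    _ ≤ Z ^ (1 + ε) * ((Cw * Cd) * Cs) := by
        refine mul_le_mul_of_nonneg_left ?_ hZ0
        exact mul_le_mul hsum₁ hsum₂ (Finset.sum_nonneg fun T _ => hh0 T) (by positivity)
    _ = Cw * Cd * Cs * Z ^ (1 + ε) := by ring

/-- the groups which are `S_3` (or a subgroup of `S_3`) modulo a part of the hypercentre -/
theorem rba_all3 (Q : DP K QBar) (G : Type) [Group G] [Finite G] (f : G →* Equiv.Perm (Fin 3))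
    (k : ℕ) (hk : f.ker ≤ Subgroup.upperCentralSeries G k) : RBA Q G :=
  rba_hyp Q f k hk (rba_s3 Q)

theorem rb_all3 (K : IntermediateField ℚ QBar) [NumberField K] (G : Type) [Group G] [Finite G]
    (f : G →* Equiv.Perm (Fin 3)) (k : ℕ) (hk : f.ker ≤ Subgroup.upperCentralSeries G k) :
    H51.TC.RB K QBar G :=
  H51.TC.rb_of_rba K G fun Q => rba_all3 Q G f k hk

theorem rb_quot3 (K : IntermediateField ℚ QBar) [NumberField K] (G : Type) [Group G] [Finite G]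
    (k : ℕ) (hA : Nonempty (G ⧸ Subgroup.upperCentralSeries G k ≃* Equiv.Perm (Fin 3))) :
    H51.TC.RB K QBar G := by
  obtain ⟨e⟩ := hA
  refine rb_all3 K G
    (e.toMonoidHom.comp (QuotientGroup.mk' (Subgroup.upperCentralSeries G k))) k ?_
  intro x hx
  have h1 : e (QuotientGroup.mk' (Subgroup.upperCentralSeries G k) x) = 1 := hx
  rw [MulEquiv.map_eq_one_iff] at h1
  exact (QuotientGroup.eq_one_iff x).1 h1

end H67.RB3
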