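import Mathlib

/-!
# RB3 (MP_b39724_nt): fields of given degree and bounded discriminant over a totally complex field, geometry (complete)

* `mink`: a nonzero `x ∈ 𝓞 L` with `|x|_w < 1` for `w ≠ w₀` and `|x|_(w₀)² < 2^N √|d_L| + 1`.
* `prim`: such an `x` generates `L` over `K`, `K` totally complex.
* `cfb`: the coefficients of its minimal polynomial over `K` are bounded by `2^n` at the places `v ≠ v₀` and by `2^n B` at `v₀`.
* `cntK`: at most `C B²` elements of `𝓞 K` are bounded by `c` at the places `v ≠ v₀` and by `c B` at `v₀`.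
-/

set_option autoImplicit false

open scoped NumberField NNReal ENNReal Classical
open NumberField NumberField.InfinitePlace NumberField.mixedEmbedding Module MeasureTheory
open Polynomial

noncomputable section

namespace H67.RB3

/-- Minkowski's theorem for an unbalanced box -/
theorem mink (L : Type) [Field L] [NumberField L] (w₀ : InfinitePlace L) (hw₀ : w₀.IsComplex) :
    ∃ x : 𝓞 L, x ≠ 0 ∧ (∀ w : InfinitePlace L, w ≠ w₀ → w x < 1) ∧
      (w₀ x) ^ 2 < 2 ^ finrank ℚ L * Real.sqrt |(discr L : ℝ)| + 1 := by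
  classical
  obtain ⟨M, hM⟩ : ∃ M : ℝ≥0, M = 2 ^ finrank ℚ L * NNReal.sqrt ‖discr L‖₊ := ⟨_, rfl⟩
  have h1 : minkowskiBound L ↑1 ≤ (M : ℝ≥0∞) := by
    rw [minkowskiBound, volume_fundamentalDomain_fractionalIdealLatticeBasis, Units.val_one,
      FractionalIdeal.absNorm_one, Rat.cast_one, ENNReal.ofReal_one, one_mul,
      mixedEmbedding.finrank, volume_fundamentalDomain_latticeBasis, hM, ENNReal.coe_mul,
      ENNReal.coe_pow, ENNReal.coe_ofNat, mul_comm]
    refine mul_le_mul_right ?_ _
    calc (2 : ℝ≥0∞)⁻¹ ^ nrComplexPlaces L * ((NNReal.sqrt ‖discr L‖₊ : ℝ≥0) : ℝ≥0∞) ≤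
          1 * ((NNReal.sqrt ‖discr L‖₊ : ℝ≥0) : ℝ≥0∞) := by
          refine mul_le_mul_left ?_ _
          exact pow_le_one₀ (by positivity) (by simp)
      _ = _ := one_mul _
  have h2 : minkowskiBound L ↑1 < volume (convexBodyLT L
      (fun w => if w = w₀ then NNReal.sqrt (M + 1) else 1)) := by
    rw [convexBodyLT_volume, ← Finset.prod_erase_mul _ _ (Finset.mem_univ w₀)]
    simp_rw [ite_pow, one_pow]
    rw [Finset.prod_ite_eq']
    simp_rw [Finset.notMem_erase, ite_false, mult, not_isReal_iff_isComplex.mpr hw₀, ite_true,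
      ite_false, one_mul, NNReal.sq_sqrt]
    refine h1.trans_lt ?_
    calc (M : ℝ≥0∞) < ((M + 1 : ℝ≥0) : ℝ≥0∞) := by
          rw [ENNReal.coe_lt_coe]
          exact lt_add_one M
      _ = 1 * ((M + 1 : ℝ≥0) : ℝ≥0∞) := (one_mul _).symm
      _ ≤ _ := by
          refine mul_le_mul_left ?_ _
          exact_mod_cast one_le_convexBodyLTFactor L
  obtain ⟨x, hx0, hx⟩ := exists_ne_zero_mem_ringOfIntegers_lt L h2
  refine ⟨x, hx0, fun w hw => ?_, ?_⟩
  · have h3 := hx w
    rw [if_neg hw] at h3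
    exact_mod_cast h3
  · have h3 := hx w₀
    rw [if_pos rfl] at h3
    have h4 : (w₀ x) ^ 2 < ((NNReal.sqrt (M + 1) : ℝ≥0) : ℝ) ^ 2 := by
      have h5 : 0 ≤ w₀ (x : L) := apply_nonneg w₀ _
      exact pow_lt_pow_left₀ h3 h5 two_ne_zero
    refine h4.trans_eq ?_
    rw [← NNReal.coe_pow, NNReal.sq_sqrt, hM]
    push_cast
    rfl

section rel

variable {K : Type} [Field K] [NumberField K] [IsTotallyComplex K] {L : Type} [Field L]
  [NumberField L] [Algebra K L]

theorem prim (w₀ : InfinitePlace L) (x : 𝓞 L) (hx : x ≠ 0)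
    (h1 : ∀ w : InfinitePlace L, w ≠ w₀ → w x < 1) :
    IntermediateField.adjoin K {(x : L)} = ⊤ := by
  let _ : Algebra K ℂ := (w₀.embedding.comp (algebraMap K L)).toAlgebra
  have hfd : FiniteDimensional K L := Module.Finite.of_restrictScalars_finite ℚ K L
  let φ : L →ₐ[K] ℂ := { w₀.embedding with commutes' := fun _ => rfl }
  have hφ : ∀ y, φ y = w₀.embedding y := fun _ => rfl
  rw [Field.primitive_element_iff_algHom_eq_of_eval K ℂ (fun y => IsAlgClosed.splits _) (x : L) φ]
  intro ψ hψ
  have h2 : 1 ≤ w₀ x := one_le_of_lt_one hx fun w hw => h1 w hw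
  have h3 : InfinitePlace.mk ψ.toRingHom = w₀ := by
    by_contra hne
    have h4 := h1 _ hne
    have h5 : (InfinitePlace.mk ψ.toRingHom) (x : L) = ‖ψ (x : L)‖ := rfl
    rw [h5, ← hψ, hφ, norm_embedding_eq] at h4
    exact absurd h2 (not_le.2 h4)
  rw [← mk_embedding w₀, mk_eq_iff] at h3
  rcases h3 with h3 | h3
  · apply AlgHom.ext
    intro y
    exact (DFunLike.congr_fun h3 y).symm
  · exfalso
    apply IsTotallyComplex.complexEmbedding_not_isReal (w₀.embedding.comp (algebraMap K L))
    rw [ComplexEmbedding.isReal_iff]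
    apply RingHom.ext
    intro k
    have h4 := DFunLike.congr_fun h3 (algebraMap K L k)
    have h5 : ψ (algebraMap K L k) = w₀.embedding (algebraMap K L k) := ψ.commutes k
    change (starRingEnd ℂ) (ψ (algebraMap K L k)) = w₀.embedding (algebraMap K L k) at h4
    rw [h5] at h4
    exact h4

/-- a product over a multiset without repetitions with at most one large factor -/
theorem mprod (s : Multiset ℂ) (hs : s.Nodup) (B : ℝ) (hB : 1 ≤ B) (h1 : ∀ z ∈ s, ‖z‖ ≤ B)
    (h2 : ∀ z ∈ s, ∀ z' ∈ s, 1 < ‖z‖ → 1 < ‖z'‖ → z = z') :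
    (s.map fun z => max 1 ‖z‖).prod ≤ B := by
  classical
  have h3 : (s.map fun z => max 1 ‖z‖).prod = ∏ z ∈ s.toFinset, max 1 ‖z‖ := by
    rw [Finset.prod_multiset_map_count]
    refine Finset.prod_congr rfl fun z hz => ?_
    rw [Multiset.count_eq_one_of_mem hs (Multiset.mem_toFinset.1 hz), pow_one]
  have h4 : ∏ z ∈ s.toFinset, max 1 ‖z‖ = ∏ z ∈ s.toFinset.filter fun z => 1 < ‖z‖, max 1 ‖z‖ := by
    rw [Finset.prod_filter]
    refine Finset.prod_congr rfl fun z _ => ?_
    split_ifs with h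
    · rfl
    · exact max_eq_left (not_lt.1 h)
  rw [h3, h4]
  rcases Finset.eq_empty_or_nonempty (s.toFinset.filter fun z => 1 < ‖z‖) with h5 | ⟨z, hz⟩
  · rw [h5, Finset.prod_empty]
    exact hB
  · have h5 : s.toFinset.filter (fun z => 1 < ‖z‖) = {z} := by
      rw [Finset.eq_singleton_iff_unique_mem]
      refine ⟨hz, fun z' hz' => ?_⟩
      rw [Finset.mem_filter, Multiset.mem_toFinset] at hz hz'
      exact h2 z' hz'.1 z hz.1 hz'.2 hz.2
    rw [h5, Finset.prod_singleton]
    rw [Finset.mem_filter, Multiset.mem_toFinset] at hz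
    exact max_le hB (h1 z hz.1)

/-- the coefficients of the minimal polynomial -/
theorem cfb (w₀ : InfinitePlace L) (x : 𝓞 L) (B : ℝ) (hB : 1 ≤ B)
    (h1 : ∀ w : InfinitePlace L, w ≠ w₀ → w x < 1) (h2 : w₀ x ≤ B) (v : InfinitePlace K) (i : ℕ) :
    v ((minpoly K (x : L)).coeff i) ≤
      2 ^ finrank K L * (if v = w₀.comap (algebraMap K L) then B else 1) := by
  classical
  let _ : Algebra K ℂ := v.embedding.toAlgebra
  have hfd : FiniteDimensional K L := Module.Finite.of_restrictScalars_finite ℚ K L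
  have hint : IsIntegral K (x : L) := Algebra.IsIntegral.isIntegral _
  obtain ⟨p, hp⟩ : ∃ p : ℂ[X], p = (minpoly K (x : L)).map (algebraMap K ℂ) := ⟨_, rfl⟩
  have hmon : (minpoly K (x : L)).Monic := minpoly.monic hint
  have hdeg : p.natDegree ≤ finrank K L := by
    rw [hp, hmon.natDegree_map]
    exact minpoly.natDegree_le _
  have h3 : v ((minpoly K (x : L)).coeff i) = ‖p.coeff i‖ := by
    rw [hp, coeff_map, ← norm_embedding_eq]
    rfl
  have hroot : ∀ z ∈ p.roots, ∃ ψ : L →ₐ[K] ℂ, ψ (x : L) = z := by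
    intro z hz
    have h4 : z ∈ (minpoly K (x : L)).rootSet ℂ := by
      rw [hp] at hz
      rw [mem_rootSet]
      have h5 := (mem_roots'.1 hz).2
      refine ⟨hmon.ne_zero, ?_⟩
      rw [IsRoot.def, eval_map_algebraMap] at h5
      exact h5
    rw [← Algebra.IsAlgebraic.range_eval_eq_rootSet_minpoly] at h4
    exact h4
  have hpl : ∀ ψ : L →ₐ[K] ℂ, (InfinitePlace.mk ψ.toRingHom).comap (algebraMap K L) = v := by
    intro ψ
    rw [comap_mk]
    have h4 : ψ.toRingHom.comp (algebraMap K L) = v.embedding := by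
      apply RingHom.ext
      intro k
      exact ψ.commutes k
    rw [h4, mk_embedding]
  have hval : ∀ ψ : L →ₐ[K] ℂ, (InfinitePlace.mk ψ.toRingHom) (x : L) = ‖ψ (x : L)‖ :=
    fun ψ => rfl
  have hmah : p.mahlerMeasure ≤ if v = w₀.comap (algebraMap K L) then B else 1 := by
    rw [mahlerMeasure_eq_leadingCoeff_mul_prod_roots]
    have h4 : p.leadingCoeff = 1 := by
      rw [hp]
      exact hmon.map _
    rw [h4, norm_one, one_mul]
    have hnd : p.roots.Nodup := by
      rw [hp]
      exact nodup_roots (Polynomial.Separable.map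
        (Algebra.IsSeparable.isSeparable K (x : L) : (minpoly K (x : L)).Separable))
    split_ifs with hv
    · refine mprod _ hnd B hB ?_ ?_
      · intro z hz
        obtain ⟨ψ, rfl⟩ := hroot z hz
        rw [← hval]
        by_cases hw : InfinitePlace.mk ψ.toRingHom = w₀
        · rw [hw]
          exact h2
        · exact (h1 _ hw).le.trans hB
      · intro z hz z' hz' hz1 hz1'
        obtain ⟨ψ, rfl⟩ := hroot z hz
        obtain ⟨ψ', rfl⟩ := hroot z' hz'
        rw [← hval] at hz1 hz1'
        have hw : InfinitePlace.mk ψ.toRingHom = w₀ := by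
          by_contra hne
          exact absurd hz1 (not_lt.2 (h1 _ hne).le)
        have hw' : InfinitePlace.mk ψ'.toRingHom = w₀ := by
          by_contra hne
          exact absurd hz1' (not_lt.2 (h1 _ hne).le)
        rcases mk_eq_iff.1 (hw.trans hw'.symm) with h5 | h5
        · exact DFunLike.congr_fun h5 (x : L)
        · exfalso
          apply IsTotallyComplex.complexEmbedding_not_isReal v.embedding
          rw [ComplexEmbedding.isReal_iff]
          apply RingHom.ext
          intro k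
          have h6 := DFunLike.congr_fun h5 (algebraMap K L k)
          change (starRingEnd ℂ) (ψ (algebraMap K L k)) = ψ' (algebraMap K L k) at h6
          rw [ψ.commutes, ψ'.commutes] at h6
          exact h6
    · refine mprod _ hnd 1 le_rfl ?_ ?_
      · intro z hz
        obtain ⟨ψ, rfl⟩ := hroot z hz
        rw [← hval]
        refine (h1 _ fun hw => hv ?_).le
        rw [← hw]
        exact (hpl ψ).symm
      · intro z hz z' _ hz1 _
        exfalso
        obtain ⟨ψ, rfl⟩ := hroot z hz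
        rw [← hval] at hz1
        refine absurd hz1 (not_lt.2 (h1 _ fun hw => hv ?_).le)
        rw [← hw]
        exact (hpl ψ).symm
  rw [h3]
  refine (norm_coeff_le_choose_mul_mahlerMeasure i p).trans ?_
  have h5 : ((p.natDegree.choose i : ℕ) : ℝ) ≤ 2 ^ finrank K L := by
    calc ((p.natDegree.choose i : ℕ) : ℝ) ≤ ((2 ^ p.natDegree : ℕ) : ℝ) := by
          exact_mod_cast Nat.choose_le_two_pow _ _
      _ = 2 ^ p.natDegree := by push_cast; rfl
      _ ≤ 2 ^ finrank K L := pow_le_pow_right₀ one_le_two hdeg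
  exact mul_le_mul h5 hmah (mahlerMeasure_nonneg p) (by positivity)

end rel

/-- the number of the integers in an unbalanced box -/
theorem cntK (K : Type) [Field K] [NumberField K] (v₀ : InfinitePlace K) (c : ℝ) (hc : 1 ≤ c) :
    ∃ C : ℝ, 0 ≤ C ∧ ∀ B : ℝ, 1 ≤ B → ∀ s : Finset (𝓞 K),
      (∀ a ∈ s, ∀ v : InfinitePlace K, v a ≤ c * (if v = v₀ then B else 1)) →
        (s.card : ℝ) ≤ C * B ^ 2 := by
  classical
  refine ⟨((9 * c) ^ 2) ^ Fintype.card (InfinitePlace K), by positivity, fun B hB s hs => ?_⟩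
  let H : InfinitePlace K → ℝ := fun v => c * (if v = v₀ then B else 1)
  have hH1 : ∀ v, 1 ≤ H v := by
    intro v
    simp only [H]
    split_ifs
    · exact one_le_mul_of_one_le_of_one_le hc hB
    · rw [mul_one]; exact hc
  let M : InfinitePlace K → ℤ := fun v => ⌈2 * H v⌉ + 1
  let f : 𝓞 K → (InfinitePlace K → ℤ × ℤ) := fun a v =>
    (⌊2 * (v.embedding (a : K)).re⌋, ⌊2 * (v.embedding (a : K)).im⌋)
  have hmaps : ∀ a ∈ s, f a ∈ Fintype.piFinset fun v => Finset.Icc (-(M v)) (M v) ×ˢ
      Finset.Icc (-(M v)) (M v) := by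
    intro a ha
    rw [Fintype.mem_piFinset]
    intro v
    have h1 : ‖v.embedding (a : K)‖ ≤ H v := by
      rw [norm_embedding_eq]
      exact hs a ha v
    have key : ∀ t : ℝ, |t| ≤ H v → ⌊2 * t⌋ ∈ Finset.Icc (-(M v)) (M v) := by
      intro t ht
      have h2 := abs_le.1 ht
      have h3 : 2 * H v ≤ (⌈2 * H v⌉ : ℝ) := Int.le_ceil _
      rw [Finset.mem_Icc]
      constructor
      · rw [Int.le_floor]
        simp only [M]
        push_cast
        linarith
      · have h4 : (⌊2 * t⌋ : ℝ) ≤ 2 * t := Int.floor_le _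
        have h5 : (⌊2 * t⌋ : ℝ) ≤ ((M v : ℤ) : ℝ) := by
          simp only [M]
          push_cast
          linarith
        exact_mod_cast h5
    rw [Finset.mem_product]
    exact ⟨key _ ((Complex.abs_re_le_norm _).trans h1), key _ ((Complex.abs_im_le_norm _).trans h1)⟩
  have hinj : Set.InjOn f s := by
    intro a _ b _ hab
    by_contra hne
    have hsub : a - b ≠ 0 := sub_ne_zero.2 hne
    have hlt : ∀ v : InfinitePlace K, v ((a - b : 𝓞 K) : K) < 1 := by
      intro v
      have h1 := congrFun hab v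
      simp only [f, Prod.mk.injEq] at h1
      have key : ∀ t u : ℝ, ⌊2 * t⌋ = ⌊2 * u⌋ → |t - u| < 1 / 2 := by
        intro t u h
        have h2 := Int.abs_sub_lt_one_of_floor_eq_floor h
        rw [← mul_sub, abs_mul, abs_two] at h2
        linarith
      have h2 := key _ _ h1.1
      have h3 := key _ _ h1.2
      rw [← norm_embedding_eq]
      have h4 : v.embedding ((a - b : 𝓞 K) : K) = v.embedding (a : K) - v.embedding (b : K) := by
        push_cast
        exact map_sub _ _ _
      rw [h4]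
      refine (Complex.norm_le_abs_re_add_abs_im _).trans_lt ?_
      rw [Complex.sub_re, Complex.sub_im]
      linarith
    have h5 := one_le_of_lt_one (w := v₀) hsub fun w _ => hlt w
    exact absurd h5 (not_le.2 (hlt v₀))
  have hcard := Finset.card_le_card_of_injOn f (fun a ha => hmaps a ha) hinj
  rw [Fintype.card_piFinset] at hcard
  have hM : ∀ v, (((Finset.Icc (-(M v)) (M v) ×ˢ Finset.Icc (-(M v)) (M v)).card : ℕ) : ℝ) ≤
      (9 * H v) ^ 2 := by
    intro v
    rw [Finset.card_product, Int.card_Icc]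
    have h0 : 0 ≤ M v := by
      have h1 : 0 ≤ ⌈2 * H v⌉ := Int.ceil_nonneg (by linarith [hH1 v])
      simp only [M]
      omega
    have h1 : ((M v + 1 - -(M v)).toNat : ℤ) = 2 * M v + 1 := by
      rw [Int.toNat_of_nonneg (by omega)]
      ring
    have h2 : (((M v + 1 - -(M v)).toNat : ℕ) : ℝ) = 2 * (M v : ℝ) + 1 := by
      exact_mod_cast congrArg (fun z : ℤ => (z : ℝ)) h1
    have h3 : (M v : ℝ) ≤ 2 * H v + 2 := by
      have h4 : (⌈2 * H v⌉ : ℝ) < 2 * H v + 1 := Int.ceil_lt_add_one _
      simp only [M]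
      push_cast
      linarith
    have h5 := hH1 v
    have h6 : (((M v + 1 - -(M v)).toNat : ℕ) : ℝ) ≤ 9 * H v := by
      rw [h2]
      linarith
    rw [Nat.cast_mul, sq]
    exact mul_le_mul h6 h6 (Nat.cast_nonneg _) (by linarith)
  calc (s.card : ℝ) ≤ ((∏ v, (Finset.Icc (-(M v)) (M v) ×ˢ Finset.Icc (-(M v)) (M v)).card : ℕ) : ℝ) := by
        exact_mod_cast hcard
    _ = ∏ v, (((Finset.Icc (-(M v)) (M v) ×ˢ Finset.Icc (-(M v)) (M v)).card : ℕ) : ℝ) := by
        push_cast
        rfl
    _ ≤ ∏ v, (9 * H v) ^ 2 := Finset.prod_le_prod (fun v _ => Nat.cast_nonneg _) fun v _ => hM v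
    _ = ∏ v, ((9 * c) ^ 2 * (if v = v₀ then B ^ 2 else 1)) := by
        refine Finset.prod_congr rfl fun v _ => ?_
        simp only [H]
        split_ifs
        · ring
        · ring
    _ = ((9 * c) ^ 2) ^ Fintype.card (InfinitePlace K) * B ^ 2 := by
        rw [Finset.prod_mul_distrib, Finset.prod_const, Finset.card_univ, Finset.prod_ite_eq',
          if_pos (Finset.mem_univ _)]

end H67.RB3
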