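import Pool.Agent.H67.RB3.Sch1
import Pool.Agent.H67.RB3.Cnt

/-!
# RB3 (MP_b39724_nt): the number of fields of given degree and bounded discriminant (complete)

* `schm`: `K` totally complex: at most `C X^(n/2)` extensions `L` of `K` in `QBar` of degree `n` with `relDisc K L ≤ X`.
-/

set_option autoImplicit false

open scoped NumberField Classical
open IsDedekindDomain NumberField H38.ML H63.MA Module

noncomputable section

namespace H67.RB3

variable {K : IntermediateField ℚ QBar} [NumberField K]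

/-- a generator of small height -/
theorem gens [IsTotallyComplex K] (v₀ : InfinitePlace K) (n : ℕ) : ∃ C : ℝ, 1 ≤ C ∧
    ∀ X : ℝ, 1 ≤ X → ∀ L : IntermediateField K QBar, FiniteDimensional K L → finrank K L = n →
      (H38.ML.relDisc K L : ℝ) ≤ X →
      ∃ (y : QBar) (c : ℕ → 𝓞 K), L = IntermediateField.adjoin K {y} ∧
        (∀ i, (minpoly K y).coeff i = ((c i : 𝓞 K) : K)) ∧ (minpoly K y).natDegree = n ∧
        ∀ (i : ℕ) (v : InfinitePlace K), v ((c i : 𝓞 K) : K) ≤
          2 ^ n * (if v = v₀ then Real.sqrt (C * Real.sqrt X) else 1) := by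
  refine ⟨2 ^ (finrank ℚ K * n) * Real.sqrt (|(discr K : ℝ)| ^ n) + 1, ?_,
    fun X hX L hfd hn hdisc => ?_⟩
  · have : (0 : ℝ) ≤ 2 ^ (finrank ℚ K * n) * Real.sqrt (|(discr K : ℝ)| ^ n) := by positivity
    linarith
  have hnf : NumberField L := NumberField.of_module_finite K L
  have htc : IsTotallyComplex L := isTotallyComplex_of_algebra K L
  obtain ⟨w₀, hw₁⟩ := InfinitePlace.comap_surjective (k := K) (K := L) v₀
  have hw₀ : w₀.comap (algebraMap K L) = v₀ := hw₁
  obtain ⟨x, hx0, hx1, hx2⟩ := mink L w₀ (IsTotallyComplex.isComplex w₀)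
  obtain ⟨C, hC⟩ : ∃ C : ℝ, C = 2 ^ (finrank ℚ K * n) * Real.sqrt (|(discr K : ℝ)| ^ n) + 1 :=
    ⟨_, rfl⟩
  rw [← hC]
  have hrel : H38.ML.relDisc K L = Ideal.absNorm (differentIdeal (𝓞 K) (𝓞 L)) := by
    unfold H38.ML.relDisc
    rw [dif_pos hnf]
  have hd : |(discr L : ℝ)| ≤ X * |(discr K : ℝ)| ^ n := by
    have h1 := NumberField.natAbs_discr_eq_absNorm_differentIdeal_mul_natAbs_discr_pow K (𝓞 K) L (𝓞 L)
    rw [← hrel, hn] at h1
    have h2 : |(discr L : ℝ)| = ((discr L).natAbs : ℝ) := by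
      rw [Nat.cast_natAbs, Int.cast_abs]
    have h3 : |(discr K : ℝ)| = ((discr K).natAbs : ℝ) := by
      rw [Nat.cast_natAbs, Int.cast_abs]
    rw [h2, h3, h1]
    push_cast
    exact mul_le_mul_of_nonneg_right hdisc (by positivity)
  have hN : finrank ℚ L = finrank ℚ K * n := by
    rw [← hn, Module.finrank_mul_finrank]
  have hB : (w₀ x) ^ 2 ≤ C * Real.sqrt X := by
    have h1 : Real.sqrt |(discr L : ℝ)| ≤ Real.sqrt X * Real.sqrt (|(discr K : ℝ)| ^ n) := by
      rw [← Real.sqrt_mul (by linarith)]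
      exact Real.sqrt_le_sqrt hd
    have h2 : 1 ≤ Real.sqrt X := Real.one_le_sqrt.2 hX
    have h3 : (0 : ℝ) ≤ 2 ^ (finrank ℚ K * n) := by positivity
    rw [hN] at hx2
    calc (w₀ x) ^ 2 ≤ 2 ^ (finrank ℚ K * n) * Real.sqrt |(discr L : ℝ)| + 1 := hx2.le
      _ ≤ 2 ^ (finrank ℚ K * n) * (Real.sqrt X * Real.sqrt (|(discr K : ℝ)| ^ n)) +
          1 * Real.sqrt X := by
          rw [one_mul]
          exact add_le_add (mul_le_mul_of_nonneg_left h1 h3) h2
      _ = C * Real.sqrt X := by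
          rw [hC]
          ring
  have hC1 : 1 ≤ C := by
    have : (0 : ℝ) ≤ 2 ^ (finrank ℚ K * n) * Real.sqrt (|(discr K : ℝ)| ^ n) := by positivity
    linarith
  have hB1 : 1 ≤ Real.sqrt (C * Real.sqrt X) :=
    Real.one_le_sqrt.2 (one_le_mul_of_one_le_of_one_le hC1 (Real.one_le_sqrt.2 hX))
  have hw : w₀ x ≤ Real.sqrt (C * Real.sqrt X) := Real.le_sqrt_of_sq_le hB
  have hprim := prim (K := K) w₀ x hx0 hx1
  have hint : IsIntegral (𝓞 K) (x : L) :=
    (Algebra.IsIntegral.isIntegral (R := 𝓞 K) x).algebraMap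
  have hmp : minpoly K ((x : L) : QBar) = minpoly K (x : L) :=
    minpoly.algebraMap_eq (B := L) (B' := QBar) (algebraMap L QBar).injective (x : L)
  have hmp2 := minpoly.isIntegrallyClosed_eq_field_fractions' K hint
  refine ⟨((x : L) : QBar), fun i => (minpoly (𝓞 K) (x : L)).coeff i, ?_, fun i => ?_, ?_,
    fun i v => ?_⟩
  · have h1 : (IntermediateField.adjoin K {(x : L)}).map L.val =
        (⊤ : IntermediateField K L).map L.val := by rw [hprim]
    rw [IntermediateField.adjoin_map, Set.image_singleton, ← AlgHom.fieldRange_eq_map,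
      IntermediateField.fieldRange_val] at h1
    exact h1.symm
  · rw [hmp, hmp2, Polynomial.coeff_map]
  · rw [hmp]
    rw [← hn]
    exact (Field.primitive_element_iff_minpoly_natDegree_eq K (x : L)).1 hprim
  · have h1 := cfb (K := K) w₀ x _ hB1 hx1 hw v i
    rw [hmp2, Polynomial.coeff_map, hn, hw₀] at h1
    exact h1

theorem schm (K : IntermediateField ℚ QBar) [NumberField K] [IsTotallyComplex K] (n : ℕ) :
    ∃ C : ℝ, 0 ≤ C ∧ ∀ X : ℝ, 1 ≤ X → ∀ F : Finset (IntermediateField K QBar),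
      (∀ L ∈ F, FiniteDimensional K L ∧ finrank K L = n ∧ (H38.ML.relDisc K L : ℝ) ≤ X) →
        (F.card : ℝ) ≤ C * Real.sqrt X ^ n := by
  obtain ⟨v₀⟩ : Nonempty (InfinitePlace K) := inferInstance
  obtain ⟨C₁, hC₁, h1⟩ := gens (K := K) v₀ n
  obtain ⟨C₂, hC₂, h2⟩ := cntK K v₀ (2 ^ n) (one_le_pow₀ one_le_two)
  refine ⟨n * (C₂ * C₁) ^ n, by positivity, fun X hX F hF => ?_⟩
  have hex : ∀ L : IntermediateField K QBar, ∃ (y : QBar) (c : ℕ → 𝓞 K), L ∈ F →
      L = IntermediateField.adjoin K {y} ∧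
        (∀ i, (minpoly K y).coeff i = ((c i : 𝓞 K) : K)) ∧ (minpoly K y).natDegree = n ∧
        ∀ (i : ℕ) (v : InfinitePlace K), v ((c i : 𝓞 K) : K) ≤
          2 ^ n * (if v = v₀ then Real.sqrt (C₁ * Real.sqrt X) else 1) := by
    intro L
    by_cases hL : L ∈ F
    · obtain ⟨h3, h4, h5⟩ := hF L hL
      obtain ⟨y, c, h6⟩ := h1 X hX L h3 h4 h5
      exact ⟨y, c, fun _ => h6⟩
    · exact ⟨0, 0, fun h => absurd h hL⟩
  choose y c hyc using hex
  let f : IntermediateField K QBar → (Fin n → 𝓞 K) := fun L i => c L i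
  have hfib : ∀ b ∈ F.image f, (F.filter fun L => f L = b).card ≤ n := by
    intro b hb
    obtain ⟨L₀, hL₀, rfl⟩ := Finset.mem_image.1 hb
    have hpoly : ∀ L ∈ F.filter (fun L => f L = f L₀), minpoly K (y L) = minpoly K (y L₀) := by
      intro L hL
      obtain ⟨hLF, hLf⟩ := Finset.mem_filter.1 hL
      obtain ⟨-, a1, a2, -⟩ := hyc L hLF
      obtain ⟨-, b1, b2, -⟩ := hyc L₀ hL₀
      have hm : ∀ z : QBar, (minpoly K z).Monic := fun z =>
        minpoly.monic (Algebra.IsIntegral.isIntegral z)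
      apply Polynomial.ext
      intro i
      rcases lt_trichotomy i n with hi | hi | hi
      · rw [a1, b1]
        exact congrArg (fun z : 𝓞 K => (z : K)) (congrFun hLf ⟨i, hi⟩)
      · rw [hi]
        have e1 := (hm (y L)).coeff_natDegree
        have e2 := (hm (y L₀)).coeff_natDegree
        rw [a2] at e1
        rw [b2] at e2
        rw [e1, e2]
      · rw [Polynomial.coeff_eq_zero_of_natDegree_lt (by rw [a2]; exact hi),
          Polynomial.coeff_eq_zero_of_natDegree_lt (by rw [b2]; exact hi)]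
    have hinj : Set.InjOn y (F.filter fun L => f L = f L₀) := by
      intro L hL L' hL' h
      rw [(hyc L (Finset.mem_filter.1 (Finset.mem_coe.1 hL)).1).1,
        (hyc L' (Finset.mem_filter.1 (Finset.mem_coe.1 hL')).1).1, h]
    rw [← Finset.card_image_of_injOn hinj]
    have hsub : (F.filter fun L => f L = f L₀).image y ⊆
        ((minpoly K (y L₀)).map (algebraMap K QBar)).roots.toFinset := by
      intro z hz
      obtain ⟨L, hL, rfl⟩ := Finset.mem_image.1 hz
      rw [Multiset.mem_toFinset, Polynomial.mem_roots']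
      refine ⟨(Polynomial.map_ne_zero (minpoly.ne_zero (Algebra.IsIntegral.isIntegral _))), ?_⟩
      rw [← hpoly L hL, Polynomial.IsRoot.def, Polynomial.eval_map_algebraMap, minpoly.aeval]
    refine (Finset.card_le_card hsub).trans ((Multiset.toFinset_card_le _).trans
      ((Polynomial.card_roots' _).trans ?_))
    rw [Polynomial.natDegree_map, (hyc L₀ hL₀).2.2.1]
  obtain ⟨s, hs⟩ : ∃ s : Finset (𝓞 K), s = (F ×ˢ (Finset.univ : Finset (Fin n))).image
      fun x => f x.1 x.2 := ⟨_, rfl⟩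
  have hscard : (s.card : ℝ) ≤ C₂ * (C₁ * Real.sqrt X) := by
    have h3 := h2 (Real.sqrt (C₁ * Real.sqrt X)) (Real.one_le_sqrt.2
      (one_le_mul_of_one_le_of_one_le hC₁ (Real.one_le_sqrt.2 hX))) s (by
      intro a ha v
      rw [hs] at ha
      obtain ⟨⟨L, i⟩, hLi, rfl⟩ := Finset.mem_image.1 ha
      exact (hyc L (Finset.mem_product.1 hLi).1).2.2.2 i v)
    rwa [Real.sq_sqrt (by positivity)] at h3
  have himg : F.image f ⊆ Fintype.piFinset fun _ : Fin n => s := by
    intro b hb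
    obtain ⟨L, hL, rfl⟩ := Finset.mem_image.1 hb
    rw [Fintype.mem_piFinset]
    intro i
    rw [hs]
    exact Finset.mem_image.2 ⟨(L, i), Finset.mem_product.2 ⟨hL, Finset.mem_univ _⟩, rfl⟩
  have hic := Finset.card_le_card himg
  rw [Fintype.card_piFinset, Finset.prod_const, Finset.card_univ, Fintype.card_fin] at hic
  have hF2 : F.card ≤ n * (F.image f).card := Finset.card_le_mul_card_image _ _ hfib
  calc (F.card : ℝ) ≤ ((n * (F.image f).card : ℕ) : ℝ) := by exact_mod_cast hF2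
    _ ≤ ((n * s.card ^ n : ℕ) : ℝ) := by exact_mod_cast Nat.mul_le_mul_left n hic
    _ = n * (s.card : ℝ) ^ n := by push_cast; rfl
    _ ≤ n * (C₂ * (C₁ * Real.sqrt X)) ^ n :=
        mul_le_mul_of_nonneg_left (pow_le_pow_left₀ (Nat.cast_nonneg _) hscard n)
          (Nat.cast_nonneg _)
    _ = n * (C₂ * C₁) ^ n * Real.sqrt X ^ n := by
        rw [← mul_assoc C₂, mul_pow (C₂ * C₁)]
        ring

end H67.RB3
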