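import Pool.Agent.H67.RB3.Sch2
import Pool.Agent.H86.HT.Def

/-!
# RB3 (MP_b39724_nt): a counting bound for every finite group (complete)

`rbt_all`: `K` totally complex, `H` a finite group: the homomorphisms `Gal(QBar/K) →* H` of finite type with product of the norms of the ramified primes at most `Y` are at
most `C Y^(|H|^2/2)` in number (the exponent does not depend on `K`): `RBt K QBar H (|H|^2/2)`.

Proof. A surjective `ρ` onto a transitive `G ≤ S_n` gives a field `L` of degree `n` with `relDisc K L ≤ C rr(ρ)^(n-1)` (`disc_bound`), at most `|G|^|G|` homomorphisms give the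
same field; `schm`. Every group has a regular representation; all homomorphisms from the surjective ones onto subgroups.
-/

set_option autoImplicit false

open scoped NumberField Classical
open IsDedekindDomain NumberField H38.ML H63.MA H38.WM H86.WP Module

noncomputable section

namespace H67.RB3

variable {K : IntermediateField ℚ QBar} [NumberField K]

/-- the discriminant from above -/
theorem dfu {n : ℕ} (hn : 1 ≤ n) (G : Subgroup (Equiv.Perm (Fin n)))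
    (hG : MulAction.IsPretransitive G (Fin n)) (Q : DP K QBar) (i₀ : Fin n) :
    ∃ C : ℝ, 1 ≤ C ∧ ∀ ρ : Gal(QBar/K) →* G, Function.Surjective ρ → FT ρ →
      (H38.ML.relDisc K (fieldOf i₀ ρ) : ℝ) ≤ C * rr Q ρ ^ (n - 1) := by
  set S : Set (Ideal (𝓞 K)) :=
    {v : Ideal (𝓞 K) | v.IsPrime ∧ v ≠ ⊥ ∧ ((n.factorial : ℕ) : 𝓞 K) ∈ v} with hS
  obtain ⟨C, hC, hb⟩ := disc_bound QBar n S (gdisu_fin n) (fun v hv hv0 hvS hmem =>
    hvS ⟨hv, hv0, hmem⟩)
  refine ⟨C, by exact_mod_cast hC, fun ρ hρ hft => ?_⟩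
  obtain ⟨hfd, hdeg, -, hemb⟩ := small_field G hG K i₀ ρ hρ hft
  have hnf : NumberField (fieldOf i₀ ρ) := NumberField.of_module_finite K (fieldOf i₀ ρ)
  have hpos : ∀ J : Subgroup (Equiv.Perm (Fin n)), 1 ≤ orbs J := by
    intro J
    unfold orbs
    have hfin : Finite (MulAction.orbitRel.Quotient J (Fin n)) := Quotient.finite _
    have hne : Nonempty (MulAction.orbitRel.Quotient J (Fin n)) := ⟨Quotient.mk'' i₀⟩
    exact Nat.card_pos
  have hmain := hb (fieldOf i₀ ρ) hfd hnf hdeg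
    (((tt Q ρ).filter fun v => v.asIdeal ∉ S).image fun v => v.asIdeal) (n - 1)
    (by
      intro v hv
      obtain ⟨w, -, rfl⟩ := Finset.mem_image.1 hv
      exact ⟨w.isPrime, w.ne_bot⟩)
    (by
      intro v hv
      obtain ⟨w, hw, rfl⟩ := Finset.mem_image.1 hv
      refine ⟨Q.P w, Q.prime w, Q.under w, ?_⟩
      rw [hemb]
      have h1 := hpos ((((Q.P w).inertia Gal(QBar/K)).map ρ).map G.subtype)
      omega)
    (by
      intro v hv hv0 hvS hvT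
      refine ⟨Q.P ⟨v, hv, hv0⟩, Q.prime _, Q.under _, ?_⟩
      rw [hemb]
      have h1 : ((Q.P ⟨v, hv, hv0⟩).inertia Gal(QBar/K)).map ρ = ⊥ := by
        rw [eq_bot_iff]
        rintro _ ⟨τ, hτ, rfl⟩
        rw [Subgroup.mem_bot]
        by_contra h
        apply hvT
        refine Finset.mem_image.2 ⟨⟨v, hv, hv0⟩, Finset.mem_filter.2 ⟨?_, hvS⟩, rfl⟩
        exact (mem_tt Q hft _).2 ⟨τ, hτ, h⟩
      rw [h1, Subgroup.map_bot, orbs_bot])
  have hrel : H38.ML.relDisc K (fieldOf i₀ ρ) =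
      Ideal.absNorm (differentIdeal (𝓞 K) (𝓞 (fieldOf i₀ ρ))) := by
    unfold H38.ML.relDisc
    rw [dif_pos hnf]
  rw [hrel]
  have hprod : ∏ v ∈ ((tt Q ρ).filter fun v => v.asIdeal ∉ S).image (fun v : Pl K => v.asIdeal),
      Ideal.absNorm v ≤ ∏ v ∈ tt Q ρ, nm v := by
    rw [Finset.prod_image (fun a _ b _ h => HeightOneSpectrum.ext h)]
    refine Finset.prod_le_prod_of_subset_of_one_le' (Finset.filter_subset _ _) fun v _ _ => ?_
    exact Nat.one_le_iff_ne_zero.2 fun h => v.ne_bot (Ideal.absNorm_eq_zero_iff.1 h)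
  have h2 : Ideal.absNorm (differentIdeal (𝓞 K) (𝓞 (fieldOf i₀ ρ))) ≤
      C * (∏ v ∈ tt Q ρ, nm v) ^ (n - 1) :=
    le_trans hmain (Nat.mul_le_mul_left _ (Nat.pow_le_pow_left hprod _))
  have h3 : ((Ideal.absNorm (differentIdeal (𝓞 K) (𝓞 (fieldOf i₀ ρ))) : ℕ) : ℝ) ≤
      ((C * (∏ v ∈ tt Q ρ, nm v) ^ (n - 1) : ℕ) : ℝ) := Nat.cast_le.2 h2
  refine h3.trans (le_of_eq ?_)
  unfold rr
  push_cast
  rfl

/-- the kernel in terms of the field -/
theorem ker_fd {n : ℕ} (G : Subgroup (Equiv.Perm (Fin n)))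
    (hG : MulAction.IsPretransitive G (Fin n)) (i₀ : Fin n) (ρ : Gal(QBar/K) →* G)
    (hρ : Function.Surjective ρ) (hft : FT ρ) (σ : Gal(QBar/K)) :
    ρ σ = 1 ↔ ∀ τ : Gal(QBar/K), τ⁻¹ * σ * τ ∈ (fieldOf i₀ ρ).fixingSubgroup := by
  constructor
  · intro h τ
    rw [H38.AS.qn_fix i₀ ρ hft, map_mul, map_mul, map_inv, h, mul_one, inv_mul_cancel, one_smul]
  · intro h
    apply Subtype.ext
    apply Equiv.ext
    intro i
    obtain ⟨g, hg⟩ := hG.exists_smul_eq i₀ i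
    obtain ⟨τ, rfl⟩ := hρ g
    have h1 := h τ
    rw [H38.AS.qn_fix i₀ ρ hft, map_mul, map_mul, map_inv, mul_smul, mul_smul, hg,
      inv_smul_eq_iff, hg] at h1
    exact h1

/-- the homomorphisms with the same field -/
theorem fib_fd {n : ℕ} (G : Subgroup (Equiv.Perm (Fin n)))
    (hG : MulAction.IsPretransitive G (Fin n)) (i₀ : Fin n)
    (X : Finset (Gal(QBar/K) →* G)) (L : IntermediateField K QBar)
    (hX : ∀ ρ ∈ X, Function.Surjective ρ ∧ FT ρ ∧ fieldOf i₀ ρ = L) :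
    X.card ≤ Nat.card (G → G) := by
  rcases X.eq_empty_or_nonempty with h0 | ⟨ρ₀, hρ₀⟩
  · rw [h0, Finset.card_empty]
    exact Nat.zero_le _
  obtain ⟨h1, h2, h3⟩ := hX ρ₀ hρ₀
  choose s hs using h1
  let _ : Fintype (G → G) := Fintype.ofFinite _
  rw [Nat.card_eq_fintype_card]
  refine Finset.card_le_card_of_injOn (t := Finset.univ)
    (fun (ρ : Gal(QBar/K) →* G) (g : G) => ρ (s g)) (fun _ _ => Finset.mem_coe.2 (Finset.mem_univ _)) ?_
  have key : ∀ ρ ∈ X, ∀ σ, ρ σ = ρ (s (ρ₀ σ)) := by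
    intro ρ hρ σ
    obtain ⟨g1, g2, g3⟩ := hX ρ hρ
    have h4 : ρ₀ (s (ρ₀ σ) * σ⁻¹) = 1 := by
      rw [map_mul, hs, map_inv, mul_inv_cancel]
    have h5 : ρ (s (ρ₀ σ) * σ⁻¹) = 1 := by
      rw [ker_fd G hG i₀ ρ g1 g2, g3, ← h3, ← ker_fd G hG i₀ ρ₀ (fun g => ⟨s g, hs g⟩) h2]
      exact h4
    rw [map_mul, map_inv] at h5
    exact (mul_inv_eq_one.1 h5).symm
  intro ρ hρ ρ' hρ' h
  apply MonoidHom.ext
  intro σ
  rw [key ρ (Finset.mem_coe.1 hρ), key ρ' (Finset.mem_coe.1 hρ')]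
  exact congrFun h (ρ₀ σ)

/-- the surjective homomorphisms onto a transitive group of degree `n` -/
theorem rbt_sj [IsTotallyComplex K] {n : ℕ} (hn : 1 ≤ n) (G : Subgroup (Equiv.Perm (Fin n)))
    (hG : MulAction.IsPretransitive G (Fin n)) (Q : DP K QBar) :
    ∃ C : ℝ, 0 ≤ C ∧ ∀ Y : ℝ, 1 ≤ Y → ∀ Rs : Finset (Gal(QBar/K) →* G),
      (∀ ρ ∈ Rs, Cn Q Y ρ) → (Rs.card : ℝ) ≤ C * Y ^ (((n : ℝ) * ((n : ℝ) - 1)) / 2) := by
  have i₀ : Fin n := ⟨0, hn⟩
  obtain ⟨C₁, hC₁, h1⟩ := dfu hn G hG Q i₀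
  obtain ⟨C₂, hC₂, h2⟩ := schm K n
  refine ⟨(Nat.card (G → G) : ℝ) * (C₂ * Real.sqrt C₁ ^ n), by positivity, fun Y hY Rs hRs => ?_⟩
  have hY0 : 0 ≤ Y := by linarith
  have h3 : Rs.card ≤ Nat.card (G → G) * (Rs.image fun ρ => fieldOf i₀ ρ).card := by
    refine Finset.card_le_mul_card_image _ _ fun L _ => ?_
    refine fib_fd G hG i₀ _ L fun ρ hρ => ?_
    obtain ⟨h4, h5⟩ := Finset.mem_filter.1 hρ
    exact ⟨(hRs ρ h4).1, (hRs ρ h4).2.1, h5⟩
  have h4 := h2 (C₁ * Y ^ (n - 1)) (one_le_mul_of_one_le_of_one_le hC₁ (one_le_pow₀ hY))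
    (Rs.image fun ρ => fieldOf i₀ ρ) (by
      intro L hL
      obtain ⟨ρ, hρ, rfl⟩ := Finset.mem_image.1 hL
      obtain ⟨g1, g2, g3⟩ := hRs ρ hρ
      obtain ⟨hfd, hdeg, -, -⟩ := small_field G hG K i₀ ρ g1 g2
      refine ⟨hfd, hdeg, (h1 ρ g1 g2).trans ?_⟩
      refine mul_le_mul_of_nonneg_left ?_ (by linarith)
      refine pow_le_pow_left₀ (zero_le_one.trans (rr_one Q ρ)) ?_ _
      exact (cf_iff Q Y g2).1 ⟨g2, g3⟩)
  have h5 : Real.sqrt (C₁ * Y ^ (n - 1)) ^ n =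
      Real.sqrt C₁ ^ n * Y ^ (((n : ℝ) * ((n : ℝ) - 1)) / 2) := by
    rw [Real.sqrt_mul (by linarith), mul_pow]
    congr 1
    have hc : ((n - 1 : ℕ) : ℝ) = (n : ℝ) - 1 := by
      rw [Nat.cast_sub hn, Nat.cast_one]
    rw [Real.sqrt_eq_rpow, ← Real.rpow_natCast Y (n - 1), ← Real.rpow_mul hY0,
      ← Real.rpow_natCast (Y ^ _) n, ← Real.rpow_mul hY0, hc]
    congr 1
    ring
  calc (Rs.card : ℝ) ≤ ((Nat.card (G → G) * (Rs.image fun ρ => fieldOf i₀ ρ).card : ℕ) : ℝ) :=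
        Nat.cast_le.2 h3
    _ = (Nat.card (G → G) : ℝ) * ((Rs.image fun ρ => fieldOf i₀ ρ).card : ℝ) := by
        rw [Nat.cast_mul]
    _ ≤ (Nat.card (G → G) : ℝ) * (C₂ * Real.sqrt (C₁ * Y ^ (n - 1)) ^ n) :=
        mul_le_mul_of_nonneg_left h4 (Nat.cast_nonneg _)
    _ = _ := by
        rw [h5]
        ring

/-- the regular representation -/
theorem regr (H : Type) [Group H] [Finite H] : ∃ (G : Subgroup (Equiv.Perm (Fin (Nat.card H))))
    (_ : MulAction.IsPretransitive G (Fin (Nat.card H))), Nonempty (H ≃* G) := by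
  let e : H ≃ Fin (Nat.card H) := Finite.equivFin H
  let r : H →* Equiv.Perm (Fin (Nat.card H)) :=
    (Equiv.permCongrHom e).toMonoidHom.comp (MulAction.toPermHom H H)
  have hr : ∀ h i, r h i = e (h * e.symm i) := fun h i => rfl
  have hinj : Function.Injective r := by
    rw [injective_iff_map_eq_one]
    intro h hh
    have h1 := hr h (e 1)
    rw [hh, Equiv.Perm.one_apply, Equiv.symm_apply_apply, mul_one] at h1
    exact (e.injective h1).symm
  refine ⟨r.range, ⟨fun i j => ?_⟩, ⟨MonoidHom.ofInjective hinj⟩⟩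
  refine ⟨⟨r (e.symm j * (e.symm i)⁻¹), ⟨_, rfl⟩⟩, ?_⟩
  change r (e.symm j * (e.symm i)⁻¹) i = j
  rw [hr, inv_mul_cancel_right, Equiv.apply_symm_apply]

/-- the surjective homomorphisms onto any finite group -/
theorem rbt_grp [IsTotallyComplex K] (H : Type) [Group H] [Finite H] (Q : DP K QBar) :
    ∃ C : ℝ, 0 ≤ C ∧ ∀ Y : ℝ, 1 ≤ Y → ∀ Rs : Finset (Gal(QBar/K) →* H),
      (∀ ρ ∈ Rs, Cn Q Y ρ) →
        (Rs.card : ℝ) ≤ C * Y ^ (((Nat.card H : ℝ) * ((Nat.card H : ℝ) - 1)) / 2) := by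
  obtain ⟨G, hG, ⟨e⟩⟩ := regr H
  obtain ⟨C, hC0, hC⟩ := rbt_sj (K := K) Nat.card_pos G hG Q
  refine ⟨C, hC0, fun Y hY Rs hRs => ?_⟩
  let F : (Gal(QBar/K) →* H) → (Gal(QBar/K) →* G) := fun ρ => e.toMonoidHom.comp ρ
  have hF : Function.Injective F := by
    intro ρ ρ' h
    apply MonoidHom.ext
    intro σ
    exact e.injective (DFunLike.congr_fun h σ)
  have h1 := hC Y hY (Rs.image F) (by
    intro ρ hρ
    obtain ⟨φ, hφ, rfl⟩ := Finset.mem_image.1 hρ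
    obtain ⟨h2, h3, h4⟩ := hRs φ hφ
    refine ⟨e.surjective.comp h2, ft_comp _ h3, fun S hS => h4 S fun l hl => ?_⟩
    obtain ⟨τ, hτ, hne⟩ := hS l hl
    refine ⟨τ, hτ, fun h0 => hne ?_⟩
    change e (φ τ) = 1
    rw [h0, map_one])
  rwa [Finset.card_image_of_injective _ hF] at h1

/-- all homomorphisms -/
theorem rbt_all [IsTotallyComplex K] (H : Type) [Group H] [Finite H] :
    H86.HT.RBt K QBar H ((Nat.card H : ℝ) ^ 2 / 2) := by
  intro Q ε hε
  choose C hC0 hC using fun U : Subgroup H => rbt_grp (K := K) U Q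
  let _ : Fintype (Subgroup H) := Fintype.ofFinite _
  refine ⟨∑ U, C U, fun Z hZ Rs hRs => ?_⟩
  have h1 : ∀ U : Subgroup H, (((Rs.filter fun ρ => ρ.range = U).card : ℕ) : ℝ) ≤
      C U * Z ^ ((Nat.card H : ℝ) ^ 2 / 2 + ε) := by
    intro U
    let F : (Gal(QBar/K) →* H) → (Gal(QBar/K) →* U) := fun ρ =>
      if h : ∀ σ, ρ σ ∈ U then ρ.codRestrict U h else 1
    have hF : ∀ ρ ∈ Rs.filter (fun ρ => ρ.range = U), ∀ σ, ((F ρ σ : U) : H) = ρ σ := by
      intro ρ hρ σ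
      have h2 := (Finset.mem_filter.1 hρ).2
      have h3 : ∀ σ, ρ σ ∈ U := fun σ => h2 ▸ ⟨σ, rfl⟩
      simp only [F, dif_pos h3]
      rfl
    have hinj : Set.InjOn F (Rs.filter fun ρ => ρ.range = U) := by
      intro ρ hρ ρ' hρ' h4
      apply MonoidHom.ext
      intro σ
      rw [← hF ρ hρ, ← hF ρ' hρ', h4]
    have h5 := hC U Z hZ ((Rs.filter fun ρ => ρ.range = U).image F) (by
      intro φ hφ
      obtain ⟨ρ, hρ, rfl⟩ := Finset.mem_image.1 hφ
      obtain ⟨h6, h7⟩ := Finset.mem_filter.1 hρ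
      obtain ⟨⟨E, hE, hle⟩, h8⟩ := hRs ρ h6
      have h9 : ∀ σ, ρ σ = 1 → F ρ σ = 1 := by
        intro σ hσ
        apply Subtype.ext
        rw [hF ρ hρ, hσ]
        rfl
      refine ⟨?_, ⟨E, hE, fun σ hσ => h9 σ (hle hσ)⟩, fun S hS => h8 S fun l hl => ?_⟩
      · rintro ⟨u, hu⟩
        rw [← h7] at hu
        obtain ⟨σ, hσ⟩ := hu
        exact ⟨σ, Subtype.ext (by rw [hF ρ hρ, hσ])⟩
      · obtain ⟨τ, hτ, hne⟩ := hS l hl
        exact ⟨τ, hτ, fun h0 => hne (h9 τ h0)⟩)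
    rw [Finset.card_image_of_injOn hinj] at h5
    refine h5.trans (mul_le_mul_of_nonneg_left ?_ (hC0 U))
    refine Real.rpow_le_rpow_of_exponent_le hZ ?_
    have h10 : (Nat.card U : ℝ) ≤ (Nat.card H : ℝ) :=
      Nat.cast_le.2 (Nat.le_of_dvd Nat.card_pos (Subgroup.card_subgroup_dvd_card U))
    have h11 : (0 : ℝ) ≤ (Nat.card U : ℝ) := Nat.cast_nonneg _
    nlinarith
  calc (Rs.card : ℝ) = ∑ U : Subgroup H, (((Rs.filter fun ρ => ρ.range = U).card : ℕ) : ℝ) := by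
        have h2 := Finset.card_eq_sum_card_fiberwise
          (f := fun ρ : Gal(QBar/K) →* H => ρ.range) (s := Rs) (t := Finset.univ)
          (fun ρ _ => Finset.mem_coe.2 (Finset.mem_univ _))
        exact_mod_cast h2
    _ ≤ ∑ U : Subgroup H, C U * Z ^ ((Nat.card H : ℝ) ^ 2 / 2 + ε) :=
        Finset.sum_le_sum fun U _ => h1 U
    _ = (∑ U, C U) * Z ^ ((Nat.card H : ℝ) ^ 2 / 2 + ε) := by rw [Finset.sum_mul]

end H67.RB3
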