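import Pool.Agent.H86.WP.Rad
import Pool.Agent.H38.BG.TCyc

/-!
# RB3 (MP_b39724_nt): homomorphisms to `S_3` over a given sign character (complete)

`S` contains the primes over 6. `Nt Q S φ`: the inertia groups outside `S` have no image of order 3.
`fib3`: the `φ : Gal(QBar/K) →* S_3` with `sign ∘ φ = ψ` which are unramified outside `T` are at most `3 ^ #T * #A` in number, if the finite set `A` contains all
`φ` over `ψ` with `Nt Q S φ`.

Proof. `tw φ₁ φ₂ σ = φ₁ σ (φ₂ σ)⁻¹ s(ψ σ)` is again a homomorphism over `ψ` (`s` the section of the sign). At `v ∉ S` at which `ψ` is unramified the inertia group has a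
generator `τ v` (the same for all `φ`, tame), so `φ (τ v)` has at most 3 values and determines `φ` on the inertia group; two `φ` with the same values give `tw` with
`Nt`. At `v ∉ S` at which `ψ` is ramified the image of inertia is cyclic, so of order 2.
-/

set_option autoImplicit false

open scoped NumberField
open IsDedekindDomain NumberField H38.ML H63.MA H38.WM H86.WP

noncomputable section

namespace H67.RB3

/-- the sign -/
abbrev sg : Equiv.Perm (Fin 3) →* ℤˣ := Equiv.Perm.sign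

/-- the section -/
def sc (u : ℤˣ) : Equiv.Perm (Fin 3) := if u = 1 then 1 else Equiv.swap 0 1

theorem sc_sg : ∀ u : ℤˣ, sg (sc u) = u := by
  intro u
  rcases Int.units_eq_one_or u with rfl | rfl
  · decide +kernel
  · decide +kernel

theorem tw_dec : ∀ a b c d : Equiv.Perm (Fin 3), sg a = sg b → sg c = sg d →
    (a * c) * (b * d)⁻¹ * sc (sg (b * d)) = (a * b⁻¹ * sc (sg b)) * (c * d⁻¹ * sc (sg d)) := by
  decide +kernel

theorem odd_sq : ∀ g : Equiv.Perm (Fin 3), sg g ≠ 1 → g ^ 2 = 1 := by decide +kernel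

theorem even_cb : ∀ g : Equiv.Perm (Fin 3), sg g = 1 → g ^ 3 = 1 := by decide +kernel

/-- the even elements -/
def ev : Finset (Equiv.Perm (Fin 3)) := Finset.univ.filter fun g => sg g = 1

theorem ev_mem (g : Equiv.Perm (Fin 3)) : g ∈ ev ↔ sg g = 1 := by
  unfold ev
  rw [Finset.mem_filter]
  exact ⟨fun h => h.2, fun h => ⟨Finset.mem_univ _, h⟩⟩

theorem ev_card : ev.card = 3 := by decide +kernel

/-- an even power of an odd element is trivial -/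
theorem odd_pow {g h : Equiv.Perm (Fin 3)} (hg : sg g ≠ 1) (hh : h ∈ Subgroup.zpowers g)
    (h1 : sg h = 1) : h = 1 := by
  obtain ⟨k, rfl⟩ := Subgroup.mem_zpowers_iff.1 hh
  have h2 := odd_sq g hg
  rcases Int.even_or_odd' k with ⟨m, rfl | rfl⟩
  · rw [zpow_mul]
    have h3 : g ^ (2 : ℤ) = 1 := by exact_mod_cast h2
    rw [h3, one_zpow]
  · exfalso
    apply hg
    have h3 : g ^ (2 : ℤ) = 1 := by exact_mod_cast h2
    rw [zpow_add, zpow_mul, h3, one_zpow, one_mul, zpow_one] at h1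
    exact h1

variable {K : IntermediateField ℚ QBar} [NumberField K]

/-- the twist -/
def tw (φ₁ φ₂ : Gal(QBar/K) →* Equiv.Perm (Fin 3)) (h : sg.comp φ₁ = sg.comp φ₂) :
    Gal(QBar/K) →* Equiv.Perm (Fin 3) :=
  MonoidHom.mk' (fun σ => φ₁ σ * (φ₂ σ)⁻¹ * sc (sg (φ₂ σ))) (by
    intro σ τ
    have h1 : sg (φ₁ σ) = sg (φ₂ σ) := DFunLike.congr_fun h σ
    have h2 : sg (φ₁ τ) = sg (φ₂ τ) := DFunLike.congr_fun h τ
    change φ₁ (σ * τ) * (φ₂ (σ * τ))⁻¹ * sc (sg (φ₂ (σ * τ))) = _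
    rw [map_mul φ₁, map_mul φ₂]
    exact tw_dec _ _ _ _ h1 h2)

omit [NumberField K] in
theorem tw_val (φ₁ φ₂ : Gal(QBar/K) →* Equiv.Perm (Fin 3)) (h : sg.comp φ₁ = sg.comp φ₂)
    (σ : Gal(QBar/K)) : tw φ₁ φ₂ h σ = φ₁ σ * (φ₂ σ)⁻¹ * sc (sg (φ₂ σ)) := rfl

omit [NumberField K] in
theorem tw_sg (φ₁ φ₂ : Gal(QBar/K) →* Equiv.Perm (Fin 3)) (h : sg.comp φ₁ = sg.comp φ₂)
    (σ : Gal(QBar/K)) : sg (tw φ₁ φ₂ h σ) = sg (φ₂ σ) := by
  have h1 : sg (φ₁ σ) = sg (φ₂ σ) := DFunLike.congr_fun h σ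
  rw [tw_val, map_mul, map_mul, map_inv, h1, mul_inv_cancel, one_mul, sc_sg]

omit [NumberField K] in
theorem tw_one (φ₁ φ₂ : Gal(QBar/K) →* Equiv.Perm (Fin 3)) (h : sg.comp φ₁ = sg.comp φ₂)
    (σ : Gal(QBar/K)) (h1 : φ₁ σ = φ₂ σ) (h2 : sg (φ₂ σ) = 1) : tw φ₁ φ₂ h σ = 1 := by
  rw [tw_val, h1, h2, mul_inv_cancel, one_mul]
  exact if_pos rfl

omit [NumberField K] in
theorem tw_ft (φ₁ φ₂ : Gal(QBar/K) →* Equiv.Perm (Fin 3)) (h : sg.comp φ₁ = sg.comp φ₂)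
    (h1 : FT φ₁) (h2 : FT φ₂) : FT (tw φ₁ φ₂ h) := by
  obtain ⟨E, hE, hle⟩ := h1
  obtain ⟨E', hE', hle'⟩ := h2
  refine ⟨E ⊔ E', inferInstance, fun σ hσ => ?_⟩
  have h3 : φ₁ σ = 1 :=
    MonoidHom.mem_ker.1 (hle (IntermediateField.fixingSubgroup_antitone le_sup_left hσ))
  have h4 : φ₂ σ = 1 :=
    MonoidHom.mem_ker.1 (hle' (IntermediateField.fixingSubgroup_antitone le_sup_right hσ))
  rw [MonoidHom.mem_ker]
  exact tw_one φ₁ φ₂ h σ (h3.trans h4.symm) (by rw [h4, map_one])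

omit [NumberField K] in
theorem tw_inj (φ₁ φ₁' φ₂ : Gal(QBar/K) →* Equiv.Perm (Fin 3)) (h : sg.comp φ₁ = sg.comp φ₂)
    (h' : sg.comp φ₁' = sg.comp φ₂) (he : tw φ₁ φ₂ h = tw φ₁' φ₂ h') : φ₁ = φ₁' := by
  apply MonoidHom.ext
  intro σ
  have h1 := DFunLike.congr_fun he σ
  rw [tw_val, tw_val] at h1
  exact mul_right_cancel (mul_right_cancel h1)

/-- the inertia groups outside `S` have no image of order 3 -/
def Nt (Q : DP K QBar) (S : Finset (Pl K)) (φ : Gal(QBar/K) →* Equiv.Perm (Fin 3)) : Prop :=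
  ∀ v, v ∉ S → ∀ σ ∈ (Q.P v).inertia Gal(QBar/K), sg (φ σ) = 1 → φ σ = 1

theorem tame6 (S : Finset (Pl K)) (hS : ∀ v : Pl K, (((3 : ℕ).factorial : ℕ) : 𝓞 K) ∈ v.asIdeal → v ∈ S)
    (Q : DP K QBar) {φ : Gal(QBar/K) →* Equiv.Perm (Fin 3)} (hφ : FT φ) (v : Pl K) (hv : v ∉ S) :
    ∃ τ ∈ (Q.P v).inertia Gal(QBar/K), ∀ σ ∈ (Q.P v).inertia Gal(QBar/K),
      φ σ ∈ Subgroup.zpowers (φ τ) := by
  refine H38.BG.cyc v (Q.P v) (Q.prime v) (Q.under v) φ hφ fun h => hv (hS v ?_)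
  have h5 := Subgroup.card_subgroup_dvd_card (((Q.P v).inertia Gal(QBar/K)).map φ)
  have h6 : Nat.card (Equiv.Perm (Fin 3)) = (3 : ℕ).factorial := by
    rw [Nat.card_perm, Nat.card_fin]
  rw [h6] at h5
  obtain ⟨m, hm⟩ := h5
  rw [hm, Nat.cast_mul]
  exact Ideal.mul_mem_right _ _ h

/-- a common generator of inertia -/
theorem lab (S : Finset (Pl K)) (hS : ∀ v : Pl K, (((3 : ℕ).factorial : ℕ) : 𝓞 K) ∈ v.asIdeal → v ∈ S)
    (Q : DP K QBar) (X : Finset (Gal(QBar/K) →* Equiv.Perm (Fin 3))) (hX : ∀ φ ∈ X, FT φ)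
    (v : Pl K) (hv : v ∉ S)
    (h1 : ∀ φ ∈ X, ∀ σ ∈ (Q.P v).inertia Gal(QBar/K), sg (φ σ) = 1) :
    ∃ τ ∈ (Q.P v).inertia Gal(QBar/K), ∀ φ ∈ X, ∀ φ' ∈ X, φ τ = φ' τ →
      ∀ σ ∈ (Q.P v).inertia Gal(QBar/K), φ σ = φ' σ := by
  classical
  let Φ : Gal(QBar/K) →* (X → Equiv.Perm (Fin 3)) := MonoidHom.pi fun φ => φ.1
  have hΦ : ∀ (σ : Gal(QBar/K)) (φ : X), Φ σ φ = φ.1 σ := fun σ φ => rfl
  have hft : FT Φ := by
    choose E hE hle using fun φ : X => hX φ.1 φ.2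
    refine ⟨⨆ φ, E φ, IntermediateField.finiteDimensional_iSup_of_finite, fun σ hσ => ?_⟩
    rw [MonoidHom.mem_ker]
    funext φ
    rw [hΦ]
    exact MonoidHom.mem_ker.1
      (hle φ (IntermediateField.fixingSubgroup_antitone (le_iSup E φ) hσ))
  obtain ⟨τ, hτ, hcy⟩ := H38.BG.cyc v (Q.P v) (Q.prime v) (Q.under v) Φ hft (by
    intro hmem
    have hp : Fact (Nat.Prime 3) := ⟨Nat.prime_three⟩
    have h3 : IsPGroup 3 (((Q.P v).inertia Gal(QBar/K)).map Φ) := by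
      rintro ⟨_, ⟨σ, hσ, rfl⟩⟩
      refine ⟨1, Subtype.ext ?_⟩
      change (Φ σ) ^ 3 ^ 1 = 1
      funext φ
      rw [Pi.pow_apply, hΦ, pow_one]
      exact even_cb _ (h1 φ.1 φ.2 σ hσ)
    obtain ⟨k, hk⟩ := IsPGroup.iff_card.1 h3
    rw [hk, Nat.cast_pow] at hmem
    have h4 : ((3 : ℕ) : 𝓞 K) ∈ v.asIdeal := v.isPrime.mem_of_pow_mem k hmem
    apply hv
    apply hS
    have h5 : (3 : ℕ).factorial = 3 * 2 := by decide
    rw [h5, Nat.cast_mul]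
    exact Ideal.mul_mem_right _ _ h4)
  refine ⟨τ, hτ, fun φ hφ φ' hφ' he σ hσ => ?_⟩
  obtain ⟨k, hk⟩ := Subgroup.mem_zpowers_iff.1 (hcy σ hσ)
  have h2 := congrFun hk ⟨φ, hφ⟩
  have h3 := congrFun hk ⟨φ', hφ'⟩
  rw [Pi.pow_apply, hΦ, hΦ] at h2 h3
  rw [← h2, ← h3]
  change (φ τ) ^ k = (φ' τ) ^ k
  rw [he]

theorem fib3 (S : Finset (Pl K)) (hS : ∀ v : Pl K, (((3 : ℕ).factorial : ℕ) : 𝓞 K) ∈ v.asIdeal → v ∈ S)
    (Q : DP K QBar) (ψ : Gal(QBar/K) →* ℤˣ) (A : Finset (Gal(QBar/K) →* Equiv.Perm (Fin 3)))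
    (hA : ∀ φ, FT φ → sg.comp φ = ψ → Nt Q S φ → φ ∈ A) (T : Finset (Pl K))
    (X : Finset (Gal(QBar/K) →* Equiv.Perm (Fin 3)))
    (hX : ∀ φ ∈ X, sg.comp φ = ψ ∧ FT φ ∧ ∀ l ∈ Rm Q φ, l ∈ T) : X.card ≤ 3 ^ T.card * A.card := by
  classical
  have hsg : ∀ φ ∈ X, ∀ σ, sg (φ σ) = ψ σ := fun φ hφ σ => DFunLike.congr_fun (hX φ hφ).1 σ
  have hex : ∀ v : Pl K, ∃ τ : Gal(QBar/K), v ∉ S →
      (∀ σ ∈ (Q.P v).inertia Gal(QBar/K), ψ σ = 1) →
      τ ∈ (Q.P v).inertia Gal(QBar/K) ∧ ∀ φ ∈ X, ∀ φ' ∈ X, φ τ = φ' τ →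
        ∀ σ ∈ (Q.P v).inertia Gal(QBar/K), φ σ = φ' σ := by
    intro v
    by_cases h : v ∉ S ∧ ∀ σ ∈ (Q.P v).inertia Gal(QBar/K), ψ σ = 1
    · obtain ⟨τ, h1, h2⟩ := lab S hS Q X (fun φ hφ => (hX φ hφ).2.1) v h.1
        (fun φ hφ σ hσ => (hsg φ hφ σ).trans (h.2 σ hσ))
      exact ⟨τ, fun _ _ => ⟨h1, h2⟩⟩
    · exact ⟨1, fun h1 h2 => absurd ⟨h1, h2⟩ h⟩
  choose τ hτ using hex
  let L : (Gal(QBar/K) →* Equiv.Perm (Fin 3)) → (T → Equiv.Perm (Fin 3)) := fun φ v =>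
    if sg (φ (τ v)) = 1 then φ (τ v) else 1
  have hLc : (X.image L).card ≤ 3 ^ T.card := by
    have h1 : X.image L ⊆ Fintype.piFinset (fun _ : T => ev) := by
      intro b hb
      obtain ⟨φ, -, rfl⟩ := Finset.mem_image.1 hb
      rw [Fintype.mem_piFinset]
      intro v
      rw [ev_mem]
      simp only [L]
      split_ifs with h
      · exact h
      · exact map_one _
    refine (Finset.card_le_card h1).trans ?_
    rw [Fintype.card_piFinset, Finset.prod_const, ev_card, Finset.card_univ, Fintype.card_coe]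
  have hfib : ∀ b ∈ X.image L, (X.filter fun φ => L φ = b).card ≤ A.card := by
    intro b hb
    obtain ⟨φ₂, hφ₂, rfl⟩ := Finset.mem_image.1 hb
    have hcomp : ∀ φ ∈ X, sg.comp φ = sg.comp φ₂ := fun φ hφ =>
      (hX φ hφ).1.trans (hX φ₂ hφ₂).1.symm
    let F : (Gal(QBar/K) →* Equiv.Perm (Fin 3)) → (Gal(QBar/K) →* Equiv.Perm (Fin 3)) := fun φ =>
      if h : sg.comp φ = sg.comp φ₂ then tw φ φ₂ h else 1
    have hF : ∀ (φ : Gal(QBar/K) →* Equiv.Perm (Fin 3)) (hφ : φ ∈ X),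
        F φ = tw φ φ₂ (hcomp φ hφ) := fun φ hφ => dif_pos (hcomp φ hφ)
    refine Finset.card_le_card_of_injOn F ?_ ?_
    · intro φ hφ
      obtain ⟨hφX, hL⟩ := Finset.mem_filter.1 (Finset.mem_coe.1 hφ)
      rw [Finset.mem_coe, hF φ hφX]
      refine hA _ (tw_ft _ _ _ (hX φ hφX).2.1 (hX φ₂ hφ₂).2.1) ?_ ?_
      · apply MonoidHom.ext
        intro σ
        rw [MonoidHom.comp_apply, tw_sg]
        exact hsg φ₂ hφ₂ σ
      · intro v hv σ hσ hs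
        by_cases hψ : ∀ σ ∈ (Q.P v).inertia Gal(QBar/K), ψ σ = 1
        · have h2 : sg (φ₂ σ) = 1 := (hsg φ₂ hφ₂ σ).trans (hψ σ hσ)
          refine tw_one _ _ _ _ ?_ h2
          by_cases hvT : v ∈ T
          · obtain ⟨h3, h4⟩ := hτ v hv hψ
            refine h4 φ hφX φ₂ hφ₂ ?_ σ hσ
            have h5 := congrFun hL ⟨v, hvT⟩
            simp only [L] at h5
            rwa [if_pos ((hsg φ hφX _).trans (hψ _ h3)),
              if_pos ((hsg φ₂ hφ₂ _).trans (hψ _ h3))] at h5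
          · have h3 : ∀ φ ∈ X, φ σ = 1 := by
              intro φ' hφ'
              by_contra h
              exact hvT ((hX φ' hφ').2.2 v ⟨σ, hσ, h⟩)
            rw [h3 φ hφX, h3 φ₂ hφ₂]
        · push Not at hψ
          obtain ⟨σ', hσ', hne⟩ := hψ
          obtain ⟨τ', hτ', hcy⟩ := tame6 S hS Q
            (tw_ft φ φ₂ (hcomp φ hφX) (hX φ hφX).2.1 (hX φ₂ hφ₂).2.1) v hv
          refine odd_pow ?_ (hcy σ hσ) hs
          intro h1
          apply hne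
          obtain ⟨k, hk⟩ := Subgroup.mem_zpowers_iff.1 (hcy σ' hσ')
          have h2 := congrArg sg hk
          rw [map_zpow, h1, one_zpow, tw_sg, hsg φ₂ hφ₂] at h2
          exact h2.symm
    · intro φ hφ φ' hφ' he
      have h1 := (Finset.mem_filter.1 (Finset.mem_coe.1 hφ)).1
      have h2 := (Finset.mem_filter.1 (Finset.mem_coe.1 hφ')).1
      rw [hF φ h1, hF φ' h2] at he
      exact tw_inj _ _ _ _ _ he
  calc X.card ≤ A.card * (X.image L).card := Finset.card_le_mul_card_image _ _ hfib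
    _ ≤ A.card * 3 ^ T.card := Nat.mul_le_mul_left _ hLc
    _ = 3 ^ T.card * A.card := Nat.mul_comm _ _

end H67.RB3
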